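import Pool.Agent.Run7.h962.AP.A3

/-! # Sums of weights of level `Q` over the primes in linear forms, II (helper962) -/

set_option autoImplicit false

open Finset

namespace Pool.Agent.Run7.h962.AP

open Pool.Agent.N422.SL (wt)

theorem ap_fin : ∀ ε : ℝ, 0 < ε → ∃ C : ℝ, 0 < C ∧ ∀ (k : ℕ) (δ : ℝ) (A B : ℕ), 1 ≤ k → 0 < δ → δ < 1 / 2 →
    ∃ N₀ : ℕ, ∀ N : ℕ, N₀ ≤ N → ∀ a b : Fin k → ℕ, (∀ i, 1 ≤ a i) →
    (∀ i, (a i : ℝ) ≤ Real.log N ^ B) → (∀ i, (b i : ℝ) ≤ √N) → (∀ i, Nat.Coprime (a i) (b i)) →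
    (∀ i j, i ≠ j → a i * b j ≠ a j * b i) → ∀ c : ℕ → ℕ → ℝ,
    (∀ n, 0 ≤ wt ⌊(N : ℝ) ^ δ⌋₊ c n) →
    ∑ d ∈ Icc 1 ⌊(N : ℝ) ^ δ⌋₊, nrm c d ^ 2 / Nat.totient d ≤
      Real.log N ^ A * ((∑ n ∈ range N, wt ⌊(N : ℝ) ^ δ⌋₊ c n) / N) ^ 2 →
    ∑ n ∈ range N, wt ⌊(N : ℝ) ^ δ⌋₊ c n * ((univ.filter (fun i => (a i * n + b i).Prime)).card : ℝ) ≤
      ((δ / 2 + ε) * Real.log k + C) * ∑ n ∈ range N, wt ⌊(N : ℝ) ^ δ⌋₊ c n := by
  intro ε hε
  obtain ⟨C, hC, h1⟩ := ap_set ε hε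
  refine ⟨C, hC, fun k δ A B hk hδ0 hδ => ?_⟩
  obtain ⟨N₀, h1⟩ := h1 k δ A B hk hδ0 hδ
  refine ⟨N₀, fun N hN a b ha haB hb hco hdet c hc hcn => ?_⟩
  obtain ⟨a', ha'⟩ : ∃ a' : ℕ → ℕ, a' = fun i => if h : i < k then a ⟨i, h⟩ else 1 := ⟨_, rfl⟩
  obtain ⟨b', hb'⟩ : ∃ b' : ℕ → ℕ, b' = fun i => if h : i < k then b ⟨i, h⟩ else 1 := ⟨_, rfl⟩
  have ea : ∀ i (h : i < k), a' i = a ⟨i, h⟩ := by
    intro i h
    rw [ha']
    exact dif_pos h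
  have eb : ∀ i (h : i < k), b' i = b ⟨i, h⟩ := by
    intro i h
    rw [hb']
    exact dif_pos h
  have h2 := h1 N hN (range k) a' b' (card_range k)
    (fun i hi => by rw [ea i (mem_range.1 hi)]; exact ha _)
    (fun i hi => by rw [ea i (mem_range.1 hi)]; exact haB _)
    (fun i hi => by rw [eb i (mem_range.1 hi)]; exact hb _)
    (fun i hi => by rw [ea i (mem_range.1 hi), eb i (mem_range.1 hi)]; exact hco _)
    (fun i hi j hj hij => by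
      rw [ea i (mem_range.1 hi), eb i (mem_range.1 hi), ea j (mem_range.1 hj), eb j (mem_range.1 hj)]
      apply hdet
      intro h
      exact hij (Fin.mk.inj_iff.1 h)) c hc hcn
  have e1 : ∀ n, ((range k).filter (fun i => (a' i * n + b' i).Prime)).card =
      (univ.filter (fun i : Fin k => (a i * n + b i).Prime)).card := by
    intro n
    rw [← Finset.card_map Fin.valEmbedding]
    congr 1
    ext i
    rw [mem_filter, mem_range, mem_map]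
    constructor
    · rintro ⟨h3, h4⟩
      refine ⟨⟨i, h3⟩, ?_, rfl⟩
      rw [mem_filter]
      rw [ea i h3, eb i h3] at h4
      exact ⟨mem_univ _, h4⟩
    · rintro ⟨j, h3, rfl⟩
      rw [mem_filter] at h3
      refine ⟨j.2, ?_⟩
      change (a' j.1 * n + b' j.1).Prime
      rw [ea j.1 j.2, eb j.1 j.2]
      exact h3.2
  simp only [e1] at h2
  exact h2

end Pool.Agent.Run7.h962.AP
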