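import Pool.Agent.Run7.h962.AP.A2

/-! # Primes in windows (helper962) -/

set_option autoImplicit false

open Finset

namespace Pool.Agent.Run7.h962.AP

open Pool.Agent.N422.SL (wt)

theorem window_card (n y : ℕ) : ((((Icc 1 y).filter (fun h => (n + h).Prime)).card : ℕ) : ℝ) =
    (Nat.primeCounting (n + y) : ℝ) - Nat.primeCounting n := by
  have h1 : Nat.primeCounting (n + y) = Nat.primeCounting n + ((Icc 1 y).filter (fun h => (n + h).Prime)).card := by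
    induction y with
    | zero => simp
    | succ y ih =>
      have e1 : Nat.primeCounting (n + (y + 1)) = Nat.primeCounting (n + y) + if (n + (y + 1)).Prime then 1 else 0 := by
        rw [Nat.primeCounting, Nat.primeCounting', ← add_assoc n y 1, Nat.count_succ]
        rfl
      rw [e1, ih, ← Finset.insert_Icc_right_eq_Icc_add_one (by omega : 1 ≤ y + 1), Finset.filter_insert]
      split_ifs with h
      · rw [Finset.card_insert_of_notMem]
        · ring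
        · rw [mem_filter, mem_Icc]
          omega
      · rfl
  rw [h1]
  push_cast
  ring

/-- the limit for the number of primes in windows -/
theorem win : ∀ ε : ℝ, 0 < ε → ∃ C : ℝ, 0 < C ∧ ∀ (y : ℕ) (δ : ℝ) (A : ℕ), 1 ≤ y → 0 < δ → δ < 1 / 2 →
    ∃ N₀ : ℕ, ∀ N : ℕ, N₀ ≤ N → ∀ c : ℕ → ℕ → ℝ, (∀ n, 0 ≤ wt ⌊(N : ℝ) ^ δ⌋₊ c n) →
    ∑ d ∈ Icc 1 ⌊(N : ℝ) ^ δ⌋₊, nrm c d ^ 2 / Nat.totient d ≤
      Real.log N ^ A * ((∑ n ∈ range N, wt ⌊(N : ℝ) ^ δ⌋₊ c n) / N) ^ 2 →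
    ∑ n ∈ range N, wt ⌊(N : ℝ) ^ δ⌋₊ c n * ((Nat.primeCounting (n + y) : ℝ) - Nat.primeCounting n) ≤
      ((δ / 2 + ε) * Real.log y + C) * ∑ n ∈ range N, wt ⌊(N : ℝ) ^ δ⌋₊ c n := by
  intro ε hε
  obtain ⟨C, hC, h1⟩ := ap ε hε
  refine ⟨C, hC, fun y δ A hy hδ0 hδ => ?_⟩
  obtain ⟨N₀, h2⟩ := h1 y δ A hy hδ0 hδ
  refine ⟨max N₀ (y ^ 2), fun N hN c hc hcn => ?_⟩
  have h3 := h2 N ((le_max_left _ _).trans hN) (Icc 1 y) (by simp) ?_ c hc hcn
  · simp only [window_card] at h3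
    exact h3
  · intro h hh
    rw [mem_Icc] at hh
    have h4 : y ^ 2 ≤ N := (le_max_right _ _).trans hN
    apply Real.le_sqrt_of_sq_le
    have h5 : h ^ 2 ≤ N := (Nat.pow_le_pow_left hh.2 2).trans h4
    exact_mod_cast h5

end Pool.Agent.Run7.h962.AP
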