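import Pool.Agent.Run7.h962.AP.A1
import Pool.Agent.Helper507.PNT

/-! # Sums of weights of level `Q` over actual primes, II (helper962) -/

set_option autoImplicit false

open Finset

namespace Pool.Agent.Run7.h962.AP

open Pool.Agent.N422.SL (wt)
open Pool.Agent.H442R2.KF (piN piAP Er)

/-- the error terms, by the theorem of Bombieri and Vinogradov -/
theorem err (δ : ℝ) (hδ0 : 0 < δ) (hδ : δ < 1 / 2) (A : ℕ) : ∃ N₁ : ℕ, ∀ N : ℕ, N₁ ≤ N → ∀ h : ℕ,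
    (h : ℝ) ≤ √N → ∀ B : ℕ → ℕ, (∀ d, 1 ≤ d → Nat.Coprime (B d) d) → ∀ (c : ℕ → ℕ → ℝ) (μ : ℝ), 0 ≤ μ →
    ∑ d ∈ Icc 1 ⌊(N : ℝ) ^ δ⌋₊, nrm c d ^ 2 / Nat.totient d ≤ Real.log N ^ A * μ ^ 2 →
    ∑ d ∈ Icc 1 ⌊(N : ℝ) ^ δ⌋₊, nrm c d * (|Er (N + h) d (B d)| + (h + 1)) ≤ μ * (N / Real.log N) := by
  obtain ⟨C, hC0, hC⟩ := Pool.Agent.H442R2.KF.bv δ hδ (A + 3)
  have hpos : (0:ℝ) < 1 - 2 * δ := by linarith
  have hev : ∀ᶠ x : ℝ in Filter.atTop, 8 * Real.log x ^ (A + 3) ≤ x ^ (1 - 2 * δ) := by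
    have h := (isLittleO_log_rpow_rpow_atTop ((A + 3 : ℕ) : ℝ) hpos).bound
      (show (0:ℝ) < 1 / 8 by norm_num)
    filter_upwards [h, Filter.eventually_ge_atTop (1:ℝ)] with x hx hx1
    rw [Real.norm_eq_abs, Real.norm_eq_abs, Real.rpow_natCast,
      abs_of_nonneg (pow_nonneg (Real.log_nonneg hx1) _),
      abs_of_nonneg (Real.rpow_nonneg (by linarith) _)] at hx
    linarith
  have hev2 : ∀ᶠ x : ℝ in Filter.atTop, 16 * C + 1 ≤ Real.log x :=
    Real.tendsto_log_atTop.eventually_ge_atTop _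
  obtain ⟨x1, hx1⟩ := Filter.eventually_atTop.1 (hev.and hev2)
  refine ⟨max 3 ⌈x1⌉₊, fun N hN h hh B hB c μ hμ hc => ?_⟩
  have hN3 : 3 ≤ N := (le_max_left _ _).trans hN
  have hNx : x1 ≤ N := (Nat.le_ceil x1).trans (by exact_mod_cast (le_max_right _ _).trans hN)
  obtain ⟨hl1, hl2⟩ := hx1 N hNx
  set L := Real.log N with hL
  have hN3' : (3 : ℝ) ≤ N := by exact_mod_cast hN3
  have hN0 : (0 : ℝ) < N := by linarith
  have hL1 : 1 ≤ L := Pool.Agent.H442R2.KF.TaskBV.log_ge_one hN3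
  have hL0 : 0 < L := by linarith
  set x := N + h with hx
  have hsN : √(N : ℝ) ≤ N := by
    rw [Real.sqrt_le_left hN0.le]
    nlinarith
  have hs1 : 1 ≤ √(N : ℝ) := by
    rw [Real.one_le_sqrt]
    linarith
  have hxN : (N : ℝ) ≤ x := by rw [hx]; push_cast; linarith [(Nat.cast_nonneg h : (0:ℝ) ≤ h)]
  have hx2 : (x : ℝ) ≤ 2 * N := by rw [hx]; push_cast; linarith
  have hx0 : (0 : ℝ) < x := by linarith
  set Q := ⌊(N : ℝ) ^ δ⌋₊ with hQ
  have hQx : Q ≤ ⌊(x : ℝ) ^ δ⌋₊ := Nat.floor_le_floor (Real.rpow_le_rpow hN0.le hxN hδ0.le)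
  have hQN : (Q : ℝ) ≤ (N : ℝ) ^ δ := Nat.floor_le (Real.rpow_nonneg hN0.le _)
  have hQN' : (Q : ℝ) ≤ N := hQN.trans (by
    calc (N : ℝ) ^ δ ≤ (N : ℝ) ^ (1 : ℝ) := Real.rpow_le_rpow_of_exponent_le (by linarith) (by linarith)
      _ = N := Real.rpow_one _)
  have hQN2 : Q ≤ x := by
    have : Q ≤ N := by exact_mod_cast hQN'
    omega
  -- Bombieri-Vinogradov
  have h1 : ∑ d ∈ Icc 1 Q, |Er x d (B d)| ≤ C * (2 * N / L ^ (A + 3)) := by
    have h2 := hC x (by omega) B hB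
    have h3 : ∑ d ∈ Icc 1 Q, |Er x d (B d)| ≤ ∑ d ∈ Icc 1 ⌊(x : ℝ) ^ δ⌋₊, |Er x d (B d)| :=
      Finset.sum_le_sum_of_subset_of_nonneg (Finset.Icc_subset_Icc le_rfl hQx) (fun _ _ _ => abs_nonneg _)
    refine h3.trans (h2.trans ?_)
    apply mul_le_mul_of_nonneg_left _ hC0.le
    have h4 : L ≤ Real.log x := Real.log_le_log hN0 hxN
    exact div_le_div₀ (by positivity) hx2 (by positivity) (pow_le_pow_left₀ hL0.le h4 _)
  have h5 : ((h : ℝ) + 1) ^ 2 ≤ 4 * N := by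
    have h6 : (h : ℝ) + 1 ≤ 2 * √(N : ℝ) := by linarith
    calc ((h : ℝ) + 1) ^ 2 ≤ (2 * √(N : ℝ)) ^ 2 := pow_le_pow_left₀ (by positivity) h6 _
      _ = 4 * (√(N : ℝ)) ^ 2 := by ring
      _ = 4 * N := by rw [Real.sq_sqrt hN0.le]
  have h7 : ∑ d ∈ Icc 1 Q, (Nat.totient d : ℝ) * (|Er x d (B d)| + (h + 1)) ^ 2 ≤
      4 * x * ∑ d ∈ Icc 1 Q, |Er x d (B d)| + 8 * N * Q ^ 2 := by
    have h8 : ∀ d ∈ Icc 1 Q, (Nat.totient d : ℝ) * (|Er x d (B d)| + (h + 1)) ^ 2 ≤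
        4 * x * |Er x d (B d)| + 8 * N * Q := by
      intro d hd
      rw [mem_Icc] at hd
      have h9 := Er_tri x d (B d) hd.1 (hd.2.trans hQN2)
      have hphi : (0 : ℝ) ≤ Nat.totient d := Nat.cast_nonneg _
      have hphiQ : (Nat.totient d : ℝ) ≤ Q := by exact_mod_cast (Nat.totient_le d).trans hd.2
      have h10 : (|Er x d (B d)| + ((h : ℝ) + 1)) ^ 2 ≤ 2 * |Er x d (B d)| ^ 2 + 2 * ((h : ℝ) + 1) ^ 2 := by
        nlinarith [sq_nonneg (|Er x d (B d)| - ((h : ℝ) + 1))]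
      calc (Nat.totient d : ℝ) * (|Er x d (B d)| + (h + 1)) ^ 2
          ≤ Nat.totient d * (2 * |Er x d (B d)| ^ 2 + 2 * ((h : ℝ) + 1) ^ 2) :=
            mul_le_mul_of_nonneg_left h10 hphi
        _ = 2 * (Nat.totient d * |Er x d (B d)|) * |Er x d (B d)| + Nat.totient d * (2 * ((h : ℝ) + 1) ^ 2) := by ring
        _ ≤ 2 * (2 * x) * |Er x d (B d)| + Q * (2 * (4 * N)) := by
            apply add_le_add
            · apply mul_le_mul_of_nonneg_right _ (abs_nonneg _)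
              linarith
            · apply mul_le_mul hphiQ _ (by positivity) (Nat.cast_nonneg _)
              linarith
        _ = 4 * x * |Er x d (B d)| + 8 * N * Q := by ring
    refine (Finset.sum_le_sum h8).trans ?_
    rw [Finset.sum_add_distrib, ← Finset.mul_sum, Finset.sum_const, Nat.card_Icc, nsmul_eq_mul]
    apply add_le_add le_rfl
    have : ((Q + 1 - 1 : ℕ) : ℝ) = Q := by simp
    rw [this]
    apply le_of_eq
    ring
  have h11 : ∑ d ∈ Icc 1 Q, (Nat.totient d : ℝ) * (|Er x d (B d)| + (h + 1)) ^ 2 ≤ N ^ 2 / L ^ (A + 2) := by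
    have h12 : 4 * (x : ℝ) * ∑ d ∈ Icc 1 Q, |Er x d (B d)| ≤ 16 * C * (N ^ 2 / L ^ (A + 3)) := by
      calc 4 * (x : ℝ) * ∑ d ∈ Icc 1 Q, |Er x d (B d)| ≤ (4 * (2 * N)) * (C * (2 * N / L ^ (A + 3))) := by
            apply mul_le_mul _ h1 (Finset.sum_nonneg fun _ _ => abs_nonneg _) (by positivity)
            linarith
        _ = 16 * C * (N ^ 2 / L ^ (A + 3)) := by ring
    have h13 : 8 * (N : ℝ) * Q ^ 2 ≤ N ^ 2 / L ^ (A + 3) := by
      rw [le_div_iff₀ (by positivity)]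
      have h14 : (Q : ℝ) ^ 2 ≤ (N : ℝ) ^ (2 * δ) := by
        calc (Q : ℝ) ^ 2 ≤ ((N : ℝ) ^ δ) ^ 2 := pow_le_pow_left₀ (Nat.cast_nonneg _) hQN _
          _ = (N : ℝ) ^ (2 * δ) := by
            rw [← Real.rpow_natCast, ← Real.rpow_mul hN0.le]
            congr 1
            push_cast
            ring
      calc 8 * (N : ℝ) * Q ^ 2 * L ^ (A + 3) = N * Q ^ 2 * (8 * L ^ (A + 3)) := by ring
        _ ≤ N * (N : ℝ) ^ (2 * δ) * (N : ℝ) ^ (1 - 2 * δ) := by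
            apply mul_le_mul _ hl1 (by positivity) (by positivity)
            exact mul_le_mul_of_nonneg_left h14 hN0.le
        _ = N * ((N : ℝ) ^ (2 * δ) * (N : ℝ) ^ (1 - 2 * δ)) := by ring
        _ = N ^ 2 := by
            rw [← Real.rpow_add hN0]
            have : 2 * δ + (1 - 2 * δ) = 1 := by ring
            rw [this, Real.rpow_one]
            ring
    calc _ ≤ _ := h7
      _ ≤ 16 * C * (N ^ 2 / L ^ (A + 3)) + N ^ 2 / L ^ (A + 3) := add_le_add h12 h13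
      _ = (16 * C + 1) * (N ^ 2 / L ^ (A + 3)) := by ring
      _ ≤ L * (N ^ 2 / L ^ (A + 3)) := mul_le_mul_of_nonneg_right hl2 (by positivity)
      _ = N ^ 2 / L ^ (A + 2) := by
          rw [pow_succ L (A + 2)]
          field_simp
  refine (cs Q c (fun d => |Er x d (B d)| + (h + 1)) (fun d => by positivity)).trans ?_
  rw [Real.sqrt_le_left (by positivity)]
  have h15 : 0 ≤ ∑ d ∈ Icc 1 Q, (Nat.totient d : ℝ) * (|Er x d (B d)| + (h + 1)) ^ 2 :=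
    Finset.sum_nonneg fun _ _ => by positivity
  calc _ ≤ (L ^ A * μ ^ 2) * (N ^ 2 / L ^ (A + 2)) := mul_le_mul hc h11 h15 (by positivity)
    _ = (μ * (N / L)) ^ 2 := by
        rw [pow_add L A 2]
        field_simp

theorem piN_eq (x : ℕ) : piN x = Nat.primeCounting x := by
  rw [Nat.primeCounting, Nat.primeCounting', Nat.count_eq_card_filter_range]
  unfold piN
  congr 1
  ext p
  rw [mem_filter, mem_filter, mem_Icc, mem_range]
  constructor
  · rintro ⟨⟨h1, h2⟩, h3⟩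
    exact ⟨by omega, h3⟩
  · rintro ⟨h1, h2⟩
    exact ⟨⟨h2.one_lt.le, by omega⟩, h2⟩

/-- the prime number theorem -/
theorem pi_le (η : ℝ) (hη : 0 < η) : ∃ N₂ : ℕ, ∀ N : ℕ, N₂ ≤ N → ∀ h : ℕ, (h : ℝ) ≤ √N →
    (piN (N + h) : ℝ) ≤ (1 + η) ^ 2 * (N / Real.log N) := by
  have h1 : ∀ᶠ x : ℝ in Filter.atTop, (Nat.primeCounting ⌊x⌋₊ : ℝ) * Real.log x / x < 1 + η :=
    Pool.Agent.Helper507.PNT.pi_tendsto.eventually (gt_mem_nhds (by linarith))
  obtain ⟨x0, hx0⟩ := Filter.eventually_atTop.1 h1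
  refine ⟨max 3 (max ⌈x0⌉₊ ⌈(η ^ 2)⁻¹⌉₊), fun N hN h hh => ?_⟩
  have hN3 : 3 ≤ N := (le_max_left _ _).trans hN
  have hNx : x0 ≤ N := (Nat.le_ceil x0).trans (by
    exact_mod_cast ((le_max_left _ _).trans (le_max_right _ _)).trans hN)
  have hNη : (η ^ 2)⁻¹ ≤ N := (Nat.le_ceil _).trans (by
    exact_mod_cast ((le_max_right _ _).trans (le_max_right _ _)).trans hN)
  have hN0 : (0 : ℝ) < N := by
    have : (3 : ℝ) ≤ N := by exact_mod_cast hN3
    linarith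
  have hL1 : 1 ≤ Real.log N := Pool.Agent.H442R2.KF.TaskBV.log_ge_one hN3
  have hL0 : 0 < Real.log N := by linarith
  have hh0 : (0 : ℝ) ≤ h := Nat.cast_nonneg _
  have h2 := hx0 ((N + h : ℕ) : ℝ) (by push_cast; linarith)
  rw [Nat.floor_natCast, ← piN_eq] at h2
  have hx : (0 : ℝ) < ((N + h : ℕ) : ℝ) := by push_cast; linarith
  rw [div_lt_iff₀ hx] at h2
  have h3 : Real.log N ≤ Real.log ((N + h : ℕ) : ℝ) := Real.log_le_log hN0 (by push_cast; linarith)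
  have h4 : (h : ℝ) ≤ η * N := by
    refine hh.trans ?_
    rw [Real.sqrt_le_left (by positivity)]
    have : 1 ≤ η ^ 2 * N := by
      rw [inv_le_iff_one_le_mul₀ (by positivity)] at hNη
      linarith
    calc (N : ℝ) = 1 * N := (one_mul _).symm
      _ ≤ (η ^ 2 * N) * N := mul_le_mul_of_nonneg_right this hN0.le
      _ = (η * N) ^ 2 := by ring
  have h5 : (piN (N + h) : ℝ) * Real.log N ≤ (1 + η) ^ 2 * N := by
    calc (piN (N + h) : ℝ) * Real.log N ≤ (piN (N + h) : ℝ) * Real.log ((N + h : ℕ) : ℝ) :=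
          mul_le_mul_of_nonneg_left h3 (Nat.cast_nonneg _)
      _ ≤ (1 + η) * ((N + h : ℕ) : ℝ) := h2.le
      _ ≤ (1 + η) * ((1 + η) * N) := by
          apply mul_le_mul_of_nonneg_left _ (by linarith)
          push_cast
          linarith
      _ = _ := by ring
  rw [← mul_div_assoc, le_div_iff₀ hL0]
  exact h5

/-- The sharp limit for the number of primes detected by nonnegative weights, for the primes themselves. -/
theorem ap : ∀ ε : ℝ, 0 < ε → ∃ C : ℝ, 0 < C ∧ ∀ (k : ℕ) (δ : ℝ) (A : ℕ), 1 ≤ k → 0 < δ → δ < 1 / 2 →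
    ∃ N₀ : ℕ, ∀ N : ℕ, N₀ ≤ N → ∀ H : Finset ℕ, H.card = k → (∀ h ∈ H, (h : ℝ) ≤ √N) → ∀ c : ℕ → ℕ → ℝ,
    (∀ n, 0 ≤ wt ⌊(N : ℝ) ^ δ⌋₊ c n) →
    ∑ d ∈ Icc 1 ⌊(N : ℝ) ^ δ⌋₊, nrm c d ^ 2 / Nat.totient d ≤
      Real.log N ^ A * ((∑ n ∈ range N, wt ⌊(N : ℝ) ^ δ⌋₊ c n) / N) ^ 2 →
    ∑ n ∈ range N, wt ⌊(N : ℝ) ^ δ⌋₊ c n * ((H.filter (fun h => (n + h).Prime)).card : ℝ) ≤
      ((δ / 2 + ε) * Real.log k + C) * ∑ n ∈ range N, wt ⌊(N : ℝ) ^ δ⌋₊ c n := by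
  intro ε hε
  obtain ⟨C₁, hC₁, h1⟩ := Pool.Agent.Run7.h962.NW.fin_primes (ε / 2) (by positivity)
  refine ⟨C₁ + 1, by linarith, fun k δ A hk hδ0 hδ => ?_⟩
  set η : ℝ := ε / (7 * (1 + ε)) with hη
  have hη0 : 0 < η := by positivity
  have hη1 : 7 * η * (1 + ε) = ε := by
    rw [hη]
    field_simp
  have hη2 : 7 * η ≤ 1 := by
    by_contra hcon
    push Not at hcon
    nlinarith
  have hη3 : (1 + η) ^ 3 ≤ 1 + 7 * η := by
    nlinarith [mul_nonneg hη0.le (sub_nonneg.2 (show η ≤ 1 by linarith)), sq_nonneg η,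
      mul_nonneg (sq_nonneg η) (sub_nonneg.2 (show η ≤ 1 by linarith))]
  obtain ⟨Q0, h1⟩ := h1 k δ⁻¹ hk
  obtain ⟨N₁, hN₁⟩ := err δ hδ0 hδ A
  obtain ⟨N₂, hN₂⟩ := pi_le η hη0
  -- largeness conditions
  have hev : ∀ᶠ x : ℝ in Filter.atTop, ((Q0 : ℝ) + 1 ≤ x ^ δ ∧ 2 ^ δ⁻¹ * √x ≤ x) ∧ (η⁻¹ ≤ Real.log x ∧
      (k : ℝ) ≤ Real.log x) ∧ (2 ≤ x ^ δ ∧ 1 ≤ x) := by
    refine ((tendsto_rpow_atTop hδ0).eventually_ge_atTop _ |>.and ?_).and
      (((Real.tendsto_log_atTop.eventually_ge_atTop _).and (Real.tendsto_log_atTop.eventually_ge_atTop _)).and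
      (((tendsto_rpow_atTop hδ0).eventually_ge_atTop _).and (Filter.eventually_ge_atTop _)))
    filter_upwards [Filter.eventually_ge_atTop ((2 ^ δ⁻¹ : ℝ) ^ 2), Filter.eventually_ge_atTop (0 : ℝ)] with x hx hx0
    have h2 : (2 : ℝ) ^ δ⁻¹ ≤ √x := Real.le_sqrt_of_sq_le hx
    calc (2 : ℝ) ^ δ⁻¹ * √x ≤ √x * √x := mul_le_mul_of_nonneg_right h2 (Real.sqrt_nonneg _)
      _ = x := Real.mul_self_sqrt hx0
  obtain ⟨x0, hx0⟩ := Filter.eventually_atTop.1 hev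
  refine ⟨max (max N₁ N₂) (max ⌈x0⌉₊ 3), fun N hN H hH hHN c hc hcn => ?_⟩
  have hNN1 : N₁ ≤ N := ((le_max_left _ _).trans (le_max_left _ _)).trans hN
  have hNN2 : N₂ ≤ N := ((le_max_right _ _).trans (le_max_left _ _)).trans hN
  have hNx : x0 ≤ N := (Nat.le_ceil x0).trans (by
    exact_mod_cast ((le_max_left _ _).trans (le_max_right _ _)).trans hN)
  have hN3 : 3 ≤ N := ((le_max_right _ _).trans (le_max_right _ _)).trans hN
  obtain ⟨⟨hb1, hb2⟩, ⟨hb3, hb4⟩, ⟨hb5, hb6⟩⟩ := hx0 N hNx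
  have hN0 : (0 : ℝ) < N := by linarith
  set Q := ⌊(N : ℝ) ^ δ⌋₊ with hQ
  set L := Real.log N with hL
  have hL1 : 1 ≤ L := Pool.Agent.H442R2.KF.TaskBV.log_ge_one hN3
  have hL0 : 0 < L := by linarith
  have hQQ : Q0 ≤ Q := by
    apply Nat.le_floor
    linarith
  have hQ1 : (N : ℝ) ^ δ ≤ 2 * Q := by
    have h2 : (N : ℝ) ^ δ < Q + 1 := Nat.lt_floor_add_one _
    have h3 : (1 : ℝ) ≤ Q := by
      have : 1 ≤ Q := by
        apply Nat.le_floor
        push_cast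
        linarith
      exact_mod_cast this
    linarith
  have hQpos : (0 : ℝ) < Q := by linarith
  have hHB : ∀ h ∈ H, (h : ℝ) ≤ (Q : ℝ) ^ δ⁻¹ := by
    intro h hh
    refine (hHN h hh).trans ?_
    have h2 : (N : ℝ) ≤ 2 ^ δ⁻¹ * (Q : ℝ) ^ δ⁻¹ := by
      rw [← Real.mul_rpow (by norm_num) hQpos.le]
      calc (N : ℝ) = ((N : ℝ) ^ δ) ^ δ⁻¹ := by
            rw [← Real.rpow_mul hN0.le, mul_inv_cancel₀ hδ0.ne', Real.rpow_one]
        _ ≤ (2 * (Q : ℝ)) ^ δ⁻¹ := Real.rpow_le_rpow (by positivity) hQ1 (by positivity)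
    have h3 : (2 : ℝ) ^ δ⁻¹ * √(N : ℝ) ≤ 2 ^ δ⁻¹ * (Q : ℝ) ^ δ⁻¹ := hb2.trans h2
    exact le_of_mul_le_mul_left h3 (by positivity)
  have h2 := h1 Q hQQ H hH hHB c hc
  set E : ℕ → ℝ := fun h => ∑ d ∈ Icc 1 Q, (∑ a ∈ (range d).filter (fun a => Nat.Coprime (a + h) d), c d a) /
    Nat.totient d with hE
  set M := (∑ n ∈ range Q.factorial, wt Q c n) / Q.factorial with hM
  set S := ∑ n ∈ range N, wt Q c n with hS
  have hS0 : 0 ≤ S := Finset.sum_nonneg fun n _ => hc n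
  have hfac : (0 : ℝ) < Q.factorial := by exact_mod_cast Q.factorial_pos
  have hM0 : 0 ≤ M := div_nonneg (Finset.sum_nonneg fun n _ => hc n) hfac.le
  have hE0 : ∀ h, 0 ≤ E h := by
    intro h
    have h3 := Pool.Agent.Run7.h962.NW.surv_sum Q h c
    have h4 : 0 ≤ ∑ n ∈ (range Q.factorial).filter (fun n => ∀ p ∈ range (Q + 1), p.Prime → ¬ p ∣ n + h), wt Q c n :=
      Finset.sum_nonneg fun n _ => hc n
    rw [h3] at h4
    have h5 : (0 : ℝ) < Nat.totient Q.factorial := by exact_mod_cast Nat.totient_pos.2 Q.factorial_pos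
    exact nonneg_of_mul_nonneg_right h4 h5
  have hlogQ : Real.log Q ≤ δ * L := by
    rw [hL, ← Real.log_rpow hN0]
    exact Real.log_le_log hQpos (Nat.floor_le (Real.rpow_nonneg hN0.le _))
  have hlogk : 0 ≤ Real.log k := Real.log_nonneg (by exact_mod_cast hk)
  -- the error
  have hμ : 0 ≤ S / N := by positivity
  have hNL : S / N * (N / L) = S / L := by field_simp
  have herr : ∀ h ∈ H, ∑ n ∈ (range N).filter (fun n => (n + h).Prime), wt Q c n ≤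
      (piN (N + h) : ℝ) * E h + S / L := by
    intro h hh
    obtain ⟨B, hB1, hB2⟩ := worst (N + h) h
    refine (main_error N h Q c B hB2).trans ?_
    apply add_le_add le_rfl
    have h3 := hN₁ N hNN1 h (hHN h hh) B hB1 c (S / N) hμ hcn
    rwa [hNL] at h3
  -- the mean
  have hmean : N * M ≤ S + S / L := by
    refine (sum_ge N Q c).trans ?_
    apply add_le_add le_rfl
    have h3 := hN₁ N hNN1 0 (by simp) (fun _ => 1) (fun d _ => Nat.coprime_one_left d) c (S / N) hμ hcn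
    rw [hNL] at h3
    refine le_trans (Finset.sum_le_sum fun d _ => ?_) h3
    have h4 := nrm_nonneg c d
    have h5 := abs_nonneg (Er (N + 0) d 1)
    have h6 : (0 : ℝ) ≤ ((0 : ℕ) : ℝ) := Nat.cast_nonneg _
    calc nrm c d = nrm c d * 1 := (mul_one _).symm
      _ ≤ nrm c d * (|Er (N + 0) d 1| + (((0 : ℕ) : ℝ) + 1)) := mul_le_mul_of_nonneg_left (by linarith) h4
  -- summation over `H`
  have hT : ∑ n ∈ range N, wt Q c n * ((H.filter (fun h => (n + h).Prime)).card : ℝ) =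
      ∑ h ∈ H, ∑ n ∈ (range N).filter (fun n => (n + h).Prime), wt Q c n := by
    have e1 : ∀ n ∈ range N, wt Q c n * ((H.filter (fun h => (n + h).Prime)).card : ℝ) =
        ∑ h ∈ H, if (n + h).Prime then wt Q c n else 0 := by
      intro n _
      rw [← Finset.sum_filter, Finset.sum_const, nsmul_eq_mul, mul_comm]
    rw [Finset.sum_congr rfl e1, Finset.sum_comm]
    apply Finset.sum_congr rfl
    intro h _
    rw [Finset.sum_filter]
  rw [hT]
  set K : ℝ := (1 / 2 + ε / 2) * Real.log k + C₁ with hK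
  have hK0 : 0 ≤ K := by positivity
  have h3 : ∑ h ∈ H, ∑ n ∈ (range N).filter (fun n => (n + h).Prime), wt Q c n ≤
      (1 + η) ^ 2 * (N / L) * ∑ h ∈ H, E h + k * (S / L) := by
    refine (Finset.sum_le_sum herr).trans ?_
    rw [Finset.sum_add_distrib, Finset.sum_const, nsmul_eq_mul, hH, Finset.mul_sum]
    apply add_le_add _ le_rfl
    apply Finset.sum_le_sum
    intro h hh
    exact mul_le_mul_of_nonneg_right (hN₂ N hNN2 h (hHN h hh)) (hE0 h)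
  have h4 : (1 + η) ^ 2 * (N / L) * ∑ h ∈ H, E h ≤ (1 + η) ^ 2 * δ * K * (S + S / L) := by
    calc (1 + η) ^ 2 * (N / L) * ∑ h ∈ H, E h ≤ (1 + η) ^ 2 * (N / L) * (K * (δ * L) * M) := by
          apply mul_le_mul_of_nonneg_left _ (by positivity)
          refine h2.trans ?_
          apply mul_le_mul_of_nonneg_right _ hM0
          exact mul_le_mul_of_nonneg_left hlogQ hK0
      _ = (1 + η) ^ 2 * δ * K * (N * M) := by
          field_simp
      _ ≤ (1 + η) ^ 2 * δ * K * (S + S / L) := mul_le_mul_of_nonneg_left hmean (by positivity)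
  have h5 : S + S / L ≤ (1 + η) * S := by
    have h6 : 1 / L ≤ η := by
      rw [div_le_iff₀ hL0]
      have h7 : η * η⁻¹ = 1 := mul_inv_cancel₀ hη0.ne'
      calc 1 = η * η⁻¹ := h7.symm
        _ ≤ η * L := mul_le_mul_of_nonneg_left hb3 hη0.le
    have h8 : S / L = 1 / L * S := by ring
    rw [h8]
    nlinarith
  have h6 : (k : ℝ) * (S / L) ≤ S := by
    rw [← mul_div_assoc, div_le_iff₀ hL0, mul_comm]
    exact mul_le_mul_of_nonneg_left hb4 hS0
  have h7 : (1 + η) ^ 2 * δ * K * (S + S / L) ≤ (δ * ((1 + 7 * η) * K)) * S := by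
    calc (1 + η) ^ 2 * δ * K * (S + S / L) ≤ (1 + η) ^ 2 * δ * K * ((1 + η) * S) :=
          mul_le_mul_of_nonneg_left h5 (by positivity)
      _ = (δ * ((1 + η) ^ 3 * K)) * S := by ring
      _ ≤ (δ * ((1 + 7 * η) * K)) * S := by
          apply mul_le_mul_of_nonneg_right _ hS0
          apply mul_le_mul_of_nonneg_left _ hδ0.le
          exact mul_le_mul_of_nonneg_right hη3 hK0
  have h8 : (1 + 7 * η) * K ≤ (1 / 2 + ε) * Real.log k + 2 * C₁ := by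
    have h9 : (1 + 7 * η) * (1 / 2 + ε / 2) = 1 / 2 + ε := by
      have : (1 + 7 * η) * (1 / 2 + ε / 2) = 1 / 2 + ε / 2 + 7 * η * (1 + ε) / 2 := by ring
      rw [this, hη1]
      ring
    have h10 : (1 + 7 * η) * C₁ ≤ 2 * C₁ := mul_le_mul_of_nonneg_right (by linarith) hC₁
    rw [hK, mul_add, ← mul_assoc, h9]
    linarith
  have h9 : δ * ((1 + 7 * η) * K) ≤ (δ / 2 + ε) * Real.log k + C₁ := by
    calc δ * ((1 + 7 * η) * K) ≤ δ * ((1 / 2 + ε) * Real.log k + 2 * C₁) := mul_le_mul_of_nonneg_left h8 hδ0.le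
      _ = (δ / 2 + δ * ε) * Real.log k + 2 * δ * C₁ := by ring
      _ ≤ (δ / 2 + ε) * Real.log k + C₁ := by
          apply add_le_add
          · apply mul_le_mul_of_nonneg_right _ hlogk
            have : δ * ε ≤ 1 * ε := mul_le_mul_of_nonneg_right (by linarith) hε.le
            linarith
          · have : 2 * δ * C₁ ≤ 1 * C₁ := mul_le_mul_of_nonneg_right (by linarith) hC₁
            linarith
  calc _ ≤ _ := h3
    _ ≤ (δ * ((1 + 7 * η) * K)) * S + S := add_le_add (h4.trans h7) h6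
    _ ≤ ((δ / 2 + ε) * Real.log k + C₁) * S + S := add_le_add (mul_le_mul_of_nonneg_right h9 hS0) le_rfl
    _ = _ := by ring

end Pool.Agent.Run7.h962.AP
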