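import Pool.Agent.Run7.h962.NW.Pr
import Pool.Agent.H442R2.KF.Bv

/-! # Sums of weights of level `Q` over actual primes, I (helper962) -/

set_option autoImplicit false

open Finset

namespace Pool.Agent.Run7.h962.AP

open Pool.Agent.N422.SL (wt)
open Pool.Agent.H442R2.KF (piN piAP Er)

/-- the sum of the absolute values of the coefficients for the modulus `d` -/
noncomputable def nrm (c : ℕ → ℕ → ℝ) (d : ℕ) : ℝ := ∑ a ∈ range d, |c d a|

theorem nrm_nonneg (c : ℕ → ℕ → ℝ) (d : ℕ) : 0 ≤ nrm c d := Finset.sum_nonneg fun _ _ => abs_nonneg _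

/-- the number of `n < N`, `n ≡ a`, with `n + h` prime -/
def cnt (N h d a : ℕ) : ℕ := ((range N).filter (fun n => n % d = a ∧ (n + h).Prime)).card

theorem sum_classes (N h Q : ℕ) (c : ℕ → ℕ → ℝ) :
    ∑ n ∈ (range N).filter (fun n => (n + h).Prime), wt Q c n =
      ∑ d ∈ Icc 1 Q, ∑ a ∈ range d, c d a * (cnt N h d a : ℝ) := by
  unfold wt
  rw [Finset.sum_comm]
  apply Finset.sum_congr rfl
  intro d hd
  rw [mem_Icc] at hd
  rw [← Finset.sum_fiberwise_of_maps_to (s := (range N).filter (fun n => (n + h).Prime)) (t := range d)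
    (g := fun n => n % d) (fun n _ => mem_range.2 (Nat.mod_lt _ (by omega)))]
  apply Finset.sum_congr rfl
  intro a _
  rw [Finset.sum_congr rfl (g := fun _ => c d a)]
  · rw [Finset.sum_const, nsmul_eq_mul, mul_comm]
    congr 2
    unfold cnt
    rw [Finset.filter_filter]
    congr 1
    apply Finset.filter_congr
    intro n _
    tauto
  · intro n hn
    rw [mem_filter] at hn
    rw [hn.2]

theorem cnt_le (N h d a : ℕ) : cnt N h d a ≤ piAP (N + h) d (a + h) := by
  unfold cnt piAP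
  apply Finset.card_le_card_of_injOn (fun n => n + h)
  · intro n hn
    rw [Finset.mem_coe, mem_filter, mem_range] at hn
    rw [Finset.mem_coe, mem_filter, mem_Icc]
    have hb : n + h ≤ N + h := by omega
    refine ⟨⟨hn.2.2.one_lt.le, hb⟩, hn.2.2, ?_⟩
    apply Nat.ModEq.add_right
    unfold Nat.ModEq
    rw [← hn.2.1, Nat.mod_mod]
  · intro n _ m _ hnm
    simpa using hnm

theorem le_cnt (N h d a : ℕ) (ha : a < d) : piAP (N + h) d (a + h) ≤ cnt N h d a + (h + 1) := by
  classical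
  have h1 : (Icc 1 (N + h)).filter (fun p : ℕ => p.Prime ∧ p ≡ a + h [MOD d]) ⊆
      ((range N).filter (fun n => n % d = a ∧ (n + h).Prime)).image (fun n => n + h) ∪ (range h ∪ {N + h}) := by
    intro p hp
    rw [mem_filter, mem_Icc] at hp
    rw [mem_union]
    by_cases h2 : h ≤ p ∧ p < N + h
    · left
      rw [mem_image]
      refine ⟨p - h, ?_, by omega⟩
      rw [mem_filter, mem_range]
      have h3 : p - h + h = p := by omega
      refine ⟨by omega, ?_, by rw [h3]; exact hp.2.1⟩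
      have h4 : p - h ≡ a [MOD d] := by
        apply Nat.ModEq.add_right_cancel' h
        rw [h3]
        exact hp.2.2
      rw [h4, Nat.mod_eq_of_lt ha]
    · right
      rw [mem_union, mem_range, mem_singleton]
      omega
  have h2 := Finset.card_le_card h1
  have h3 := Finset.card_union_le (((range N).filter (fun n => n % d = a ∧ (n + h).Prime)).image (fun n => n + h))
    (range h ∪ {N + h})
  have h4 := Finset.card_union_le (range h) {N + h}
  have h5 : (((range N).filter (fun n => n % d = a ∧ (n + h).Prime)).image (fun n => n + h)).card ≤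
      ((range N).filter (fun n => n % d = a ∧ (n + h).Prime)).card := Finset.card_image_le
  rw [card_range, card_singleton] at h4
  unfold piAP cnt
  omega

theorem piAP_one (x d b : ℕ) (hb : ¬ Nat.Coprime b d) : piAP x d b ≤ 1 := by
  unfold piAP
  rw [Finset.card_le_one]
  have key : ∀ p : ℕ, p.Prime → p ≡ b [MOD d] → p = Nat.gcd b d := by
    intro p hp hm
    have h1 : Nat.gcd p d = Nat.gcd b d := by
      rw [Nat.gcd_comm p d, Nat.gcd_comm b d, Nat.gcd_rec d p, Nat.gcd_rec d b, hm]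
    have h2 : Nat.gcd b d ∣ p := by rw [← h1]; exact Nat.gcd_dvd_left _ _
    rcases (Nat.dvd_prime hp).1 h2 with h3 | h3
    · exact absurd h3 hb
    · exact h3.symm
  intro p hp q hq
  rw [mem_filter] at hp hq
  rw [key p hp.2.1 hp.2.2, key q hq.2.1 hq.2.2]

theorem piAP_le (x d b : ℕ) (hd : 1 ≤ d) (hdx : d ≤ x) : (piAP x d b : ℝ) ≤ 2 * x / d := by
  have h1 : piAP x d b ≤ x / d + 1 := by
    unfold piAP
    rw [← Finset.card_range (x / d + 1)]
    apply Finset.card_le_card_of_injOn (fun p => p / d)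
    · intro p hp
      rw [Finset.mem_coe, mem_filter, mem_Icc] at hp
      rw [Finset.mem_coe, mem_range]
      have := Nat.div_le_div_right (c := d) hp.1.2
      exact Nat.lt_succ_of_le this
    · intro p hp q hq hpq
      rw [Finset.mem_coe, mem_filter] at hp hq
      have h2 : p % d = q % d := hp.2.2.trans hq.2.2.symm
      have h3 := Nat.div_add_mod p d
      have h4 := Nat.div_add_mod q d
      have hpq' : p / d = q / d := hpq
      rw [← h3, ← h4, h2, hpq']
  have h2 : (piAP x d b : ℝ) ≤ ((x / d : ℕ) : ℝ) + 1 := by exact_mod_cast h1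
  have h3 : ((x / d : ℕ) : ℝ) ≤ (x : ℝ) / d := Nat.cast_div_le
  have hd0 : (0 : ℝ) < d := by exact_mod_cast hd
  have h4 : (1 : ℝ) ≤ (x : ℝ) / d := by
    rw [le_div_iff₀ hd0, one_mul]
    exact_mod_cast hdx
  have h5 : 2 * (x : ℝ) / d = (x : ℝ) / d + (x : ℝ) / d := by ring
  rw [h5]
  linarith

/-- the trivial bound for the error term -/
theorem Er_tri (x d b : ℕ) (hd : 1 ≤ d) (hdx : d ≤ x) : (Nat.totient d : ℝ) * |Er x d b| ≤ 2 * x := by
  have hd0 : (0 : ℝ) < d := by exact_mod_cast hd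
  have hphi : (0 : ℝ) < Nat.totient d := by exact_mod_cast Nat.totient_pos.2 (by omega)
  have hphid : (Nat.totient d : ℝ) ≤ d := by exact_mod_cast Nat.totient_le d
  have h1 := piAP_le x d b hd hdx
  have h2 : (piN x : ℝ) ≤ x := by
    unfold piN
    exact_mod_cast (card_filter_le _ _).trans (by simp)
  have h3 : (0 : ℝ) ≤ piAP x d b := Nat.cast_nonneg _
  have h4 : (0 : ℝ) ≤ piN x := Nat.cast_nonneg _
  have h5 : (Nat.totient d : ℝ) * piAP x d b ≤ 2 * x := by
    calc (Nat.totient d : ℝ) * piAP x d b ≤ d * (2 * x / d) := mul_le_mul hphid h1 h3 hd0.le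
      _ = 2 * x := by field_simp
  have h6 : (Nat.totient d : ℝ) * (piN x / Nat.totient d) ≤ 2 * x := by
    have : (Nat.totient d : ℝ) * (piN x / Nat.totient d) = piN x := by field_simp
    rw [this]
    have : (0 : ℝ) ≤ x := Nat.cast_nonneg _
    linarith
  have h7 : |Er x d b| ≤ max (piAP x d b : ℝ) (piN x / Nat.totient d) := by
    unfold Er
    rw [abs_le]
    have h8 : 0 ≤ (piN x : ℝ) / Nat.totient d := by positivity
    constructor
    · have := le_max_right (piAP x d b : ℝ) (piN x / Nat.totient d)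
      linarith
    · have := le_max_left (piAP x d b : ℝ) (piN x / Nat.totient d)
      linarith
  calc (Nat.totient d : ℝ) * |Er x d b| ≤ Nat.totient d * max (piAP x d b : ℝ) (piN x / Nat.totient d) :=
        mul_le_mul_of_nonneg_left h7 hphi.le
    _ ≤ 2 * x := by
        rcases max_cases (piAP x d b : ℝ) (piN x / Nat.totient d) with ⟨h, _⟩ | ⟨h, _⟩
        · rw [h]; exact h5
        · rw [h]; exact h6

/-- the worst class for each modulus -/
theorem worst (x h : ℕ) : ∃ A : ℕ → ℕ, (∀ d, 1 ≤ d → Nat.Coprime (A d) d) ∧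
    ∀ d, ∀ a ∈ range d, Nat.Coprime (a + h) d → |Er x d (a + h)| ≤ |Er x d (A d)| := by
  classical
  have key : ∀ d : ℕ, ∃ b : ℕ, Nat.Coprime b d ∧
      ∀ a ∈ range d, Nat.Coprime (a + h) d → |Er x d (a + h)| ≤ |Er x d b| := by
    intro d
    rcases ((range d).filter (fun a => Nat.Coprime (a + h) d)).eq_empty_or_nonempty with h0 | h0
    · refine ⟨1, Nat.coprime_one_left d, fun a ha hc => ?_⟩
      exfalso
      have : a ∈ (range d).filter (fun a => Nat.Coprime (a + h) d) := mem_filter.2 ⟨ha, hc⟩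
      rw [h0] at this
      exact absurd this (Finset.notMem_empty _)
    · obtain ⟨b, hb, hmax⟩ := Finset.exists_max_image _ (fun a => |Er x d (a + h)|) h0
      rw [mem_filter] at hb
      exact ⟨b + h, hb.2, fun a ha hc => hmax a (mem_filter.2 ⟨ha, hc⟩)⟩
  choose A hA1 hA2 using key
  exact ⟨A, fun d _ => hA1 d, hA2⟩

/-- the sum over the primes in terms of the main term and the error -/
theorem main_error (N h Q : ℕ) (c : ℕ → ℕ → ℝ) (A : ℕ → ℕ)
    (hA : ∀ d, ∀ a ∈ range d, Nat.Coprime (a + h) d → |Er (N + h) d (a + h)| ≤ |Er (N + h) d (A d)|) :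
    ∑ n ∈ (range N).filter (fun n => (n + h).Prime), wt Q c n ≤
      (piN (N + h) : ℝ) * ∑ d ∈ Icc 1 Q, (∑ a ∈ (range d).filter (fun a => Nat.Coprime (a + h) d), c d a) /
        Nat.totient d + ∑ d ∈ Icc 1 Q, nrm c d * (|Er (N + h) d (A d)| + (h + 1)) := by
  rw [sum_classes, Finset.mul_sum, ← Finset.sum_add_distrib]
  apply Finset.sum_le_sum
  intro d hd
  rw [mem_Icc] at hd
  have e1 : (piN (N + h) : ℝ) * ((∑ a ∈ (range d).filter (fun a => Nat.Coprime (a + h) d), c d a) / Nat.totient d) =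
      ∑ a ∈ range d, (if Nat.Coprime (a + h) d then c d a * (piN (N + h) / Nat.totient d) else 0) := by
    rw [Finset.sum_filter, Finset.sum_div, Finset.mul_sum]
    apply Finset.sum_congr rfl
    intro a _
    split_ifs
    · ring
    · simp
  rw [e1]
  unfold nrm
  rw [Finset.sum_mul, ← Finset.sum_add_distrib]
  apply Finset.sum_le_sum
  intro a ha
  have ha' := mem_range.1 ha
  have hh : (0 : ℝ) ≤ (h : ℝ) + 1 := by positivity
  have hc1 : (cnt N h d a : ℝ) ≤ piAP (N + h) d (a + h) := by exact_mod_cast cnt_le N h d a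
  have hc2 : (piAP (N + h) d (a + h) : ℝ) ≤ cnt N h d a + (h + 1) := by exact_mod_cast le_cnt N h d a ha'
  split_ifs with hc
  · have h1 : |(cnt N h d a : ℝ) - piN (N + h) / Nat.totient d| ≤ |Er (N + h) d (A d)| + (h + 1) := by
      have h2 := hA d a ha hc
      have h3 : |(cnt N h d a : ℝ) - piAP (N + h) d (a + h)| ≤ h + 1 := by
        rw [abs_le]
        constructor <;> linarith
      have h4 : (cnt N h d a : ℝ) - piN (N + h) / Nat.totient d =
          ((cnt N h d a : ℝ) - piAP (N + h) d (a + h)) + Er (N + h) d (a + h) := by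
        unfold Er
        ring
      rw [h4]
      refine (abs_add_le _ _).trans ?_
      linarith
    have h5 : c d a * (cnt N h d a : ℝ) = c d a * (piN (N + h) / Nat.totient d) +
        c d a * ((cnt N h d a : ℝ) - piN (N + h) / Nat.totient d) := by ring
    rw [h5]
    have h6 : c d a * ((cnt N h d a : ℝ) - piN (N + h) / Nat.totient d) ≤
        |c d a| * (|Er (N + h) d (A d)| + (h + 1)) := by
      refine (le_abs_self _).trans ?_
      rw [abs_mul]
      exact mul_le_mul_of_nonneg_left h1 (abs_nonneg _)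
    linarith
  · rw [zero_add]
    have h1 : (cnt N h d a : ℝ) ≤ 1 := by
      have := (cnt_le N h d a).trans (piAP_one (N + h) d (a + h) hc)
      exact_mod_cast this
    have h2 : (0 : ℝ) ≤ cnt N h d a := Nat.cast_nonneg _
    have h3 : (0 : ℝ) ≤ h := Nat.cast_nonneg _
    have h4 := abs_nonneg (Er (N + h) d (A d))
    calc c d a * (cnt N h d a : ℝ) ≤ |c d a| * (cnt N h d a : ℝ) :=
          mul_le_mul_of_nonneg_right (le_abs_self _) h2
      _ ≤ |c d a| * (|Er (N + h) d (A d)| + (h + 1)) :=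
          mul_le_mul_of_nonneg_left (by linarith) (abs_nonneg _)

/-- the mean over full periods -/
theorem sum_periods (d m : ℕ) (hd : 1 ≤ d) (f : ℕ → ℝ) :
    ∑ n ∈ range (d * m), f (n % d) = m * ∑ a ∈ range d, f a := by
  induction m with
  | zero => simp
  | succ m ih =>
    rw [Nat.mul_succ, Finset.sum_range_add, ih]
    have h1 : ∑ x ∈ range d, f ((d * m + x) % d) = ∑ a ∈ range d, f a := by
      apply Finset.sum_congr rfl
      intro x hx
      rw [mem_range] at hx
      rw [Nat.mul_add_mod, Nat.mod_eq_of_lt hx]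
    rw [h1]
    push_cast
    ring

theorem mean_eq (Q : ℕ) (c : ℕ → ℕ → ℝ) : (∑ n ∈ range Q.factorial, wt Q c n) / Q.factorial =
    ∑ d ∈ Icc 1 Q, (∑ a ∈ range d, c d a) / d := by
  unfold wt
  rw [Finset.sum_comm, Finset.sum_div]
  apply Finset.sum_congr rfl
  intro d hd
  rw [mem_Icc] at hd
  obtain ⟨m, hm⟩ := Nat.dvd_factorial hd.1 hd.2
  have h1 := sum_periods d m hd.1 (fun a => c d a)
  rw [← hm] at h1
  rw [h1]
  have hd0 : (0 : ℝ) < d := by exact_mod_cast hd.1
  have hf : (0 : ℝ) < Q.factorial := by exact_mod_cast Q.factorial_pos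
  have hm' : (Q.factorial : ℝ) = d * m := by exact_mod_cast hm
  rw [div_eq_div_iff hf.ne' hd0.ne', hm']
  ring

/-- the sum of the weight over an interval is at least the expected one up to the error -/
theorem sum_ge (N Q : ℕ) (c : ℕ → ℕ → ℝ) :
    N * ((∑ n ∈ range Q.factorial, wt Q c n) / Q.factorial) ≤
      ∑ n ∈ range N, wt Q c n + ∑ d ∈ Icc 1 Q, nrm c d := by
  rw [mean_eq]
  unfold wt
  rw [Finset.sum_comm, Finset.mul_sum, ← Finset.sum_add_distrib]
  apply Finset.sum_le_sum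
  intro d hd
  rw [mem_Icc] at hd
  have hd0 : (0 : ℝ) < d := by exact_mod_cast hd.1
  obtain ⟨m, hm⟩ : ∃ m, m = N / d := ⟨_, rfl⟩
  obtain ⟨r, hr⟩ : ∃ r, r = N % d := ⟨_, rfl⟩
  have hN : N = d * m + r := by rw [hm, hr]; exact (Nat.div_add_mod N d).symm
  have hrd : r < d := by rw [hr]; exact Nat.mod_lt _ (by omega)
  have e1 : ∑ n ∈ range N, c d (n % d) = m * ∑ a ∈ range d, c d a + ∑ a ∈ range r, c d a := by
    rw [hN, Finset.sum_range_add, sum_periods d m hd.1 (fun a => c d a)]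
    congr 1
    apply Finset.sum_congr rfl
    intro x hx
    rw [mem_range] at hx
    rw [Nat.mul_add_mod, Nat.mod_eq_of_lt (by omega)]
  rw [e1]
  have e2 : (N : ℝ) * ((∑ a ∈ range d, c d a) / d) = m * ∑ a ∈ range d, c d a + (r / d) * ∑ a ∈ range d, c d a := by
    have : (N : ℝ) = d * m + r := by exact_mod_cast hN
    rw [this]
    field_simp
  rw [e2]
  have h3 : (r / d : ℝ) * ∑ a ∈ range d, c d a ≤ ∑ a ∈ range r, c d a + nrm c d := by
    have e3 : ∑ a ∈ range d, c d a = ∑ a ∈ range r, c d a + ∑ a ∈ Ico r d, c d a := by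
      rw [Finset.range_eq_Ico, Finset.range_eq_Ico, Finset.sum_Ico_consecutive _ (Nat.zero_le _) hrd.le]
    have e4 : nrm c d = ∑ a ∈ range r, |c d a| + ∑ a ∈ Ico r d, |c d a| := by
      unfold nrm
      rw [Finset.range_eq_Ico, Finset.range_eq_Ico, Finset.sum_Ico_consecutive _ (Nat.zero_le _) hrd.le]
    have q0 : (0 : ℝ) ≤ r / d := by positivity
    have q1 : (r : ℝ) / d ≤ 1 := by
      rw [div_le_one hd0]
      exact_mod_cast hrd.le
    have a1 : -∑ a ∈ range r, |c d a| ≤ ∑ a ∈ range r, c d a := by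
      rw [← Finset.sum_neg_distrib]
      exact Finset.sum_le_sum fun a _ => neg_abs_le _
    have a2 : ∑ a ∈ Ico r d, c d a ≤ ∑ a ∈ Ico r d, |c d a| := Finset.sum_le_sum fun a _ => le_abs_self _
    have a3 : 0 ≤ ∑ a ∈ Ico r d, |c d a| := Finset.sum_nonneg fun a _ => abs_nonneg _
    rw [e3, e4]
    have a4 : (r / d : ℝ) * ∑ a ∈ Ico r d, c d a ≤ ∑ a ∈ Ico r d, |c d a| := by
      calc (r / d : ℝ) * ∑ a ∈ Ico r d, c d a ≤ (r / d : ℝ) * ∑ a ∈ Ico r d, |c d a| :=
            mul_le_mul_of_nonneg_left a2 q0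
        _ ≤ 1 * ∑ a ∈ Ico r d, |c d a| := mul_le_mul_of_nonneg_right q1 a3
        _ = _ := one_mul _
    have a5 : (r / d : ℝ) * ∑ a ∈ range r, c d a ≤ ∑ a ∈ range r, c d a + ∑ a ∈ range r, |c d a| := by
      have a6 : 0 ≤ ∑ a ∈ range r, c d a + ∑ a ∈ range r, |c d a| := by linarith
      have a7 : 0 ≤ ∑ a ∈ range r, |c d a| := Finset.sum_nonneg fun a _ => abs_nonneg _
      calc (r / d : ℝ) * ∑ a ∈ range r, c d a ≤
            (r / d : ℝ) * (∑ a ∈ range r, c d a + ∑ a ∈ range r, |c d a|) :=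
            mul_le_mul_of_nonneg_left (by linarith) q0
        _ ≤ 1 * (∑ a ∈ range r, c d a + ∑ a ∈ range r, |c d a|) := mul_le_mul_of_nonneg_right q1 a6
        _ = _ := one_mul _
    rw [mul_add]
    linarith
  linarith

/-- Cauchy's inequality -/
theorem cs (Q : ℕ) (c : ℕ → ℕ → ℝ) (e : ℕ → ℝ) (he : ∀ d, 0 ≤ e d) :
    ∑ d ∈ Icc 1 Q, nrm c d * e d ≤
      √((∑ d ∈ Icc 1 Q, nrm c d ^ 2 / Nat.totient d) * ∑ d ∈ Icc 1 Q, Nat.totient d * e d ^ 2) := by
  apply Real.le_sqrt_of_sq_le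
  have h1 := Finset.sum_mul_sq_le_sq_mul_sq (Icc 1 Q) (fun d => nrm c d / √(Nat.totient d : ℝ))
    (fun d => √(Nat.totient d : ℝ) * e d)
  have e1 : ∑ d ∈ Icc 1 Q, nrm c d / √(Nat.totient d : ℝ) * (√(Nat.totient d : ℝ) * e d) =
      ∑ d ∈ Icc 1 Q, nrm c d * e d := by
    apply Finset.sum_congr rfl
    intro d hd
    rw [mem_Icc] at hd
    have : (0 : ℝ) < √(Nat.totient d : ℝ) := Real.sqrt_pos.2 (by exact_mod_cast Nat.totient_pos.2 (by omega))
    field_simp
  have e2 : ∑ d ∈ Icc 1 Q, (nrm c d / √(Nat.totient d : ℝ)) ^ 2 = ∑ d ∈ Icc 1 Q, nrm c d ^ 2 / Nat.totient d := by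
    apply Finset.sum_congr rfl
    intro d _
    rw [div_pow, Real.sq_sqrt (Nat.cast_nonneg _)]
  have e3 : ∑ d ∈ Icc 1 Q, (√(Nat.totient d : ℝ) * e d) ^ 2 = ∑ d ∈ Icc 1 Q, Nat.totient d * e d ^ 2 := by
    apply Finset.sum_congr rfl
    intro d _
    rw [mul_pow, Real.sq_sqrt (Nat.cast_nonneg _)]
  rw [e1, e2, e3] at h1
  exact h1

end Pool.Agent.Run7.h962.AP
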