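import Pool.Agent.Run7.h962.AP.A2
import Pool.Agent.Run7.h962.LF.Fin

/-! # Sums of weights of level `Q` over the primes in linear forms (helper962) -/

set_option autoImplicit false

open Finset

namespace Pool.Agent.Run7.h962.AP

open Pool.Agent.N422.SL (wt)
open Pool.Agent.H442R2.KF (piN piAP Er)
open Pool.Agent.Run7.h962.LF (ex)

/-- the number of `n < N`, `n ≡ r mod d`, with `a n + b` prime -/
def cntF (N a b d r : ℕ) : ℕ := ((range N).filter (fun n => n % d = r ∧ (a * n + b).Prime)).card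

theorem sum_classesF (N a b Q : ℕ) (c : ℕ → ℕ → ℝ) :
    ∑ n ∈ (range N).filter (fun n => (a * n + b).Prime), wt Q c n =
      ∑ d ∈ Icc 1 Q, ∑ r ∈ range d, c d r * (cntF N a b d r : ℝ) := by
  unfold wt
  rw [Finset.sum_comm]
  apply Finset.sum_congr rfl
  intro d hd
  rw [mem_Icc] at hd
  rw [← Finset.sum_fiberwise_of_maps_to (s := (range N).filter (fun n => (a * n + b).Prime)) (t := range d)
    (g := fun n => n % d) (fun n _ => mem_range.2 (Nat.mod_lt _ (by omega)))]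
  apply Finset.sum_congr rfl
  intro r _
  rw [Finset.sum_congr rfl (g := fun _ => c d r)]
  · rw [Finset.sum_const, nsmul_eq_mul, mul_comm]
    congr 2
    unfold cntF
    rw [Finset.filter_filter]
    congr 1
    apply Finset.filter_congr
    intro n _
    tauto
  · intro n hn
    rw [mem_filter] at hn
    rw [hn.2]

theorem cntF_le (N a b d r : ℕ) (ha : 1 ≤ a) : cntF N a b d r ≤ piAP (a * N + b) (a * d) (a * r + b) := by
  unfold cntF piAP
  apply Finset.card_le_card_of_injOn (fun n => a * n + b)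
  · intro n hn
    rw [Finset.mem_coe, mem_filter, mem_range] at hn
    rw [Finset.mem_coe, mem_filter, mem_Icc]
    have hb : a * n + b ≤ a * N + b := Nat.add_le_add_right (Nat.mul_le_mul_left _ hn.1.le) _
    refine ⟨⟨hn.2.2.one_lt.le, hb⟩, hn.2.2, ?_⟩
    apply Nat.ModEq.add_right
    apply Nat.ModEq.mul_left'
    unfold Nat.ModEq
    rw [← hn.2.1, Nat.mod_mod]
  · intro n _ m _ hnm
    have h1 : a * n + b = a * m + b := hnm
    exact Nat.eq_of_mul_eq_mul_left (by omega) (Nat.add_right_cancel h1)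

theorem le_cntF (N a b d r : ℕ) (ha : 1 ≤ a) (hr : r < d) :
    piAP (a * N + b) (a * d) (a * r + b) ≤ cntF N a b d r + (b + 1) := by
  classical
  have h1 : (Icc 1 (a * N + b)).filter (fun p : ℕ => p.Prime ∧ p ≡ a * r + b [MOD (a * d)]) ⊆
      ((range N).filter (fun n => n % d = r ∧ (a * n + b).Prime)).image (fun n => a * n + b) ∪
        (range b ∪ {a * N + b}) := by
    intro p hp
    rw [mem_filter, mem_Icc] at hp
    rw [mem_union]
    by_cases h2 : b ≤ p ∧ p < a * N + b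
    · left
      rw [mem_image]
      have h3 : p - b + b = p := by omega
      have h4 : p - b ≡ a * r [MOD (a * d)] := by
        apply Nat.ModEq.add_right_cancel' b
        rw [h3]
        exact hp.2.2
      have h5 : a ∣ p - b := by
        have h6 : p - b ≡ a * r [MOD a] := h4.of_mul_right d
        have h7 : a * r ≡ 0 [MOD a] := (Nat.modEq_zero_iff_dvd).2 (Dvd.intro _ rfl)
        exact (Nat.modEq_zero_iff_dvd).1 (h6.trans h7)
      obtain ⟨m, hm⟩ := h5
      rw [hm] at h4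
      have h8 : m ≡ r [MOD d] := Nat.ModEq.mul_left_cancel' (by omega) h4
      refine ⟨m, ?_, by omega⟩
      rw [mem_filter, mem_range]
      have h9 : a * m + b = p := by omega
      refine ⟨?_, ?_, by rw [h9]; exact hp.2.1⟩
      · have h10 : a * m < a * N := by omega
        exact Nat.lt_of_mul_lt_mul_left h10
      · rw [h8, Nat.mod_eq_of_lt hr]
    · right
      rw [mem_union, mem_range, mem_singleton]
      omega
  have h2 := Finset.card_le_card h1
  have h3 := Finset.card_union_le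
    (((range N).filter (fun n => n % d = r ∧ (a * n + b).Prime)).image (fun n => a * n + b)) (range b ∪ {a * N + b})
  have h4 := Finset.card_union_le (range b) {a * N + b}
  have h5 : (((range N).filter (fun n => n % d = r ∧ (a * n + b).Prime)).image (fun n => a * n + b)).card ≤
      ((range N).filter (fun n => n % d = r ∧ (a * n + b).Prime)).card := Finset.card_image_le
  rw [card_range, card_singleton] at h4
  unfold piAP cntF
  omega

/-- the worst class for each modulus -/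
theorem worstF (x a b : ℕ) : ∃ R : ℕ → ℕ, (∀ d, 1 ≤ d → Nat.Coprime (R d) (a * d)) ∧
    ∀ d, ∀ r ∈ range d, Nat.Coprime (a * r + b) (a * d) → |Er x (a * d) (a * r + b)| ≤ |Er x (a * d) (R d)| := by
  classical
  have key : ∀ d : ℕ, ∃ b' : ℕ, Nat.Coprime b' (a * d) ∧
      ∀ r ∈ range d, Nat.Coprime (a * r + b) (a * d) → |Er x (a * d) (a * r + b)| ≤ |Er x (a * d) b'| := by
    intro d
    rcases ((range d).filter (fun r => Nat.Coprime (a * r + b) (a * d))).eq_empty_or_nonempty with h0 | h0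
    · refine ⟨1, Nat.coprime_one_left _, fun r hr hc => ?_⟩
      exfalso
      have : r ∈ (range d).filter (fun r => Nat.Coprime (a * r + b) (a * d)) := mem_filter.2 ⟨hr, hc⟩
      rw [h0] at this
      exact absurd this (Finset.notMem_empty _)
    · obtain ⟨r, hr, hmax⟩ := Finset.exists_max_image _ (fun r => |Er x (a * d) (a * r + b)|) h0
      rw [mem_filter] at hr
      exact ⟨a * r + b, hr.2, fun s hs hc => hmax s (mem_filter.2 ⟨hs, hc⟩)⟩
  choose R hR1 hR2 using key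
  exact ⟨R, fun d _ => hR1 d, hR2⟩

theorem ex_eq (Q a b : ℕ) (c : ℕ → ℕ → ℝ) (hab : Nat.Coprime a b) : ex Q c (a : ℤ) (b : ℤ) =
    ∑ d ∈ Icc 1 Q, (a : ℝ) / Nat.totient (a * d) *
      ∑ r ∈ (range d).filter (fun r => Nat.Coprime (a * r + b) (a * d)), c d r := by
  unfold ex
  apply Finset.sum_congr rfl
  intro d _
  have e1 : (range d).filter (fun r : ℕ => Int.gcd ((a : ℤ) * r + (b : ℤ)) (d : ℤ) = 1) =
      (range d).filter (fun r => Nat.Coprime (a * r + b) (a * d)) := by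
    apply Finset.filter_congr
    intro r _
    have e2 : ((a : ℤ) * r + (b : ℤ)) = ((a * r + b : ℕ) : ℤ) := by push_cast; ring
    rw [e2, Int.gcd_natCast_natCast]
    have h1 : Nat.Coprime (a * r + b) a := by
      rw [Nat.coprime_comm, Nat.coprime_mul_left_add_right]
      exact hab
    constructor
    · intro h
      exact Nat.Coprime.mul_right h1 h
    · intro h
      exact Nat.Coprime.coprime_mul_left_right h
  rw [e1, Int.natAbs_natCast]

/-- the sum over the primes in terms of the main term and the error -/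
theorem main_errorF (N a b Q : ℕ) (c : ℕ → ℕ → ℝ) (R : ℕ → ℕ) (ha : 1 ≤ a) (hab : Nat.Coprime a b)
    (hR : ∀ d, ∀ r ∈ range d, Nat.Coprime (a * r + b) (a * d) →
      |Er (a * N + b) (a * d) (a * r + b)| ≤ |Er (a * N + b) (a * d) (R d)|) :
    ∑ n ∈ (range N).filter (fun n => (a * n + b).Prime), wt Q c n ≤
      (piN (a * N + b) : ℝ) / a * ex Q c (a : ℤ) (b : ℤ) +
        ∑ d ∈ Icc 1 Q, nrm c d * (|Er (a * N + b) (a * d) (R d)| + (b + 1)) := by
  have ha0 : (0 : ℝ) < a := by exact_mod_cast ha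
  rw [sum_classesF, ex_eq Q a b c hab, Finset.mul_sum, ← Finset.sum_add_distrib]
  apply Finset.sum_le_sum
  intro d hd
  rw [mem_Icc] at hd
  have e1 : (piN (a * N + b) : ℝ) / a * ((a : ℝ) / Nat.totient (a * d) *
      ∑ r ∈ (range d).filter (fun r => Nat.Coprime (a * r + b) (a * d)), c d r) =
      ∑ r ∈ range d, (if Nat.Coprime (a * r + b) (a * d) then
        c d r * (piN (a * N + b) / Nat.totient (a * d)) else 0) := by
    rw [Finset.sum_filter, ← mul_assoc, Finset.mul_sum]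
    apply Finset.sum_congr rfl
    intro r _
    split_ifs
    · field_simp
    · simp
  rw [e1]
  unfold nrm
  rw [Finset.sum_mul, ← Finset.sum_add_distrib]
  apply Finset.sum_le_sum
  intro r hr
  have hr' := mem_range.1 hr
  have hc1 : (cntF N a b d r : ℝ) ≤ piAP (a * N + b) (a * d) (a * r + b) := by exact_mod_cast cntF_le N a b d r ha
  have hc2 : (piAP (a * N + b) (a * d) (a * r + b) : ℝ) ≤ cntF N a b d r + (b + 1) := by
    exact_mod_cast le_cntF N a b d r ha hr'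
  split_ifs with hc
  · have h1 : |(cntF N a b d r : ℝ) - piN (a * N + b) / Nat.totient (a * d)| ≤
        |Er (a * N + b) (a * d) (R d)| + (b + 1) := by
      have h2 := hR d r hr hc
      have h3 : |(cntF N a b d r : ℝ) - piAP (a * N + b) (a * d) (a * r + b)| ≤ b + 1 := by
        rw [abs_le]
        have : (0 : ℝ) ≤ b := Nat.cast_nonneg _
        constructor <;> linarith
      have h4 : (cntF N a b d r : ℝ) - piN (a * N + b) / Nat.totient (a * d) =
          ((cntF N a b d r : ℝ) - piAP (a * N + b) (a * d) (a * r + b)) + Er (a * N + b) (a * d) (a * r + b) := by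
        unfold Er
        ring
      rw [h4]
      refine (abs_add_le _ _).trans ?_
      linarith
    have h5 : c d r * (cntF N a b d r : ℝ) = c d r * (piN (a * N + b) / Nat.totient (a * d)) +
        c d r * ((cntF N a b d r : ℝ) - piN (a * N + b) / Nat.totient (a * d)) := by ring
    rw [h5]
    have h6 : c d r * ((cntF N a b d r : ℝ) - piN (a * N + b) / Nat.totient (a * d)) ≤
        |c d r| * (|Er (a * N + b) (a * d) (R d)| + (b + 1)) := by
      refine (le_abs_self _).trans ?_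
      rw [abs_mul]
      exact mul_le_mul_of_nonneg_left h1 (abs_nonneg _)
    linarith
  · rw [zero_add]
    have h1 : (cntF N a b d r : ℝ) ≤ 1 := by
      have := (cntF_le N a b d r ha).trans (piAP_one (a * N + b) (a * d) (a * r + b) hc)
      exact_mod_cast this
    have h2 : (0 : ℝ) ≤ cntF N a b d r := Nat.cast_nonneg _
    have h3 : (0 : ℝ) ≤ b := Nat.cast_nonneg _
    have h4 := abs_nonneg (Er (a * N + b) (a * d) (R d))
    calc c d r * (cntF N a b d r : ℝ) ≤ |c d r| * (cntF N a b d r : ℝ) :=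
          mul_le_mul_of_nonneg_right (le_abs_self _) h2
      _ ≤ |c d r| * (|Er (a * N + b) (a * d) (R d)| + (b + 1)) :=
          mul_le_mul_of_nonneg_left (by linarith) (abs_nonneg _)

/-- the error terms, by the theorem of Bombieri and Vinogradov -/
theorem errF (δ : ℝ) (hδ0 : 0 < δ) (hδ : δ < 1 / 2) (A B : ℕ) : ∃ N₁ : ℕ, ∀ N : ℕ, N₁ ≤ N → ∀ a b : ℕ, 1 ≤ a →
    (a : ℝ) ≤ Real.log N ^ B → (b : ℝ) ≤ √N → ∀ R : ℕ → ℕ, (∀ d, 1 ≤ d → Nat.Coprime (R d) (a * d)) →
    ∀ (c : ℕ → ℕ → ℝ) (μ : ℝ), 0 ≤ μ →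
    ∑ d ∈ Icc 1 ⌊(N : ℝ) ^ δ⌋₊, nrm c d ^ 2 / Nat.totient d ≤ Real.log N ^ A * μ ^ 2 →
    ∑ d ∈ Icc 1 ⌊(N : ℝ) ^ δ⌋₊, nrm c d * (|Er (a * N + b) (a * d) (R d)| + (b + 1)) ≤ μ * (N / Real.log N) := by
  obtain ⟨δ', hδ'⟩ : ∃ δ', δ' = δ / 2 + 1 / 4 := ⟨_, rfl⟩
  obtain ⟨C, hC0, hC⟩ := Pool.Agent.H442R2.KF.bv δ' (by linarith) (A + 3 + 2 * B)
  have hpos : (0:ℝ) < 1 - 2 * δ := by linarith
  have hpos' : (0:ℝ) < δ' - δ := by linarith
  have hev : ∀ᶠ x : ℝ in Filter.atTop, 8 * Real.log x ^ (A + 3) ≤ x ^ (1 - 2 * δ) := by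
    have h := (isLittleO_log_rpow_rpow_atTop ((A + 3 : ℕ) : ℝ) hpos).bound
      (show (0:ℝ) < 1 / 8 by norm_num)
    filter_upwards [h, Filter.eventually_ge_atTop (1:ℝ)] with x hx hx1
    rw [Real.norm_eq_abs, Real.norm_eq_abs, Real.rpow_natCast,
      abs_of_nonneg (pow_nonneg (Real.log_nonneg hx1) _),
      abs_of_nonneg (Real.rpow_nonneg (by linarith) _)] at hx
    linarith
  have hev3 : ∀ᶠ x : ℝ in Filter.atTop, Real.log x ^ B ≤ x ^ (δ' - δ) := by
    have h := (isLittleO_log_rpow_rpow_atTop ((B : ℕ) : ℝ) hpos').bound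
      (show (0:ℝ) < 1 by norm_num)
    filter_upwards [h, Filter.eventually_ge_atTop (1:ℝ)] with x hx hx1
    rw [Real.norm_eq_abs, Real.norm_eq_abs, Real.rpow_natCast,
      abs_of_nonneg (pow_nonneg (Real.log_nonneg hx1) _),
      abs_of_nonneg (Real.rpow_nonneg (by linarith) _)] at hx
    linarith
  have hev2 : ∀ᶠ x : ℝ in Filter.atTop, 16 * C + 1 ≤ Real.log x :=
    Real.tendsto_log_atTop.eventually_ge_atTop _
  obtain ⟨x1, hx1⟩ := Filter.eventually_atTop.1 ((hev.and hev2).and hev3)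
  refine ⟨max 3 ⌈x1⌉₊, fun N hN a b ha haB hb R hR c μ hμ hc => ?_⟩
  have hN3 : 3 ≤ N := (le_max_left _ _).trans hN
  have hNx : x1 ≤ N := (Nat.le_ceil x1).trans (by exact_mod_cast (le_max_right _ _).trans hN)
  obtain ⟨⟨hl1, hl2⟩, hl3⟩ := hx1 N hNx
  set L := Real.log N with hL
  have hN3' : (3 : ℝ) ≤ N := by exact_mod_cast hN3
  have hN0 : (0 : ℝ) < N := by linarith
  have hL1 : 1 ≤ L := Pool.Agent.H442R2.KF.TaskBV.log_ge_one hN3
  have hL0 : 0 < L := by linarith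
  have ha1 : (1 : ℝ) ≤ a := by exact_mod_cast ha
  have ha0 : (0 : ℝ) < a := by linarith
  have hb0 : (0 : ℝ) ≤ b := Nat.cast_nonneg _
  have hsN : √(N : ℝ) ≤ N := by
    rw [Real.sqrt_le_left hN0.le]
    nlinarith
  have hs1 : 1 ≤ √(N : ℝ) := by
    rw [Real.one_le_sqrt]
    linarith
  have hLB : 1 ≤ L ^ B := one_le_pow₀ hL1
  obtain ⟨x, hx⟩ : ∃ x, x = a * N + b := ⟨_, rfl⟩
  rw [← hx]
  have hxr : (x : ℝ) = a * N + b := by rw [hx]; push_cast; ring
  have haN : (N : ℝ) ≤ a * N := le_mul_of_one_le_left hN0.le ha1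
  have hxN : (N : ℝ) ≤ x := by rw [hxr]; linarith
  have hx2 : (x : ℝ) ≤ 2 * (L ^ B * N) := by
    rw [hxr]
    have h1 : (a : ℝ) * N ≤ L ^ B * N := mul_le_mul_of_nonneg_right haB hN0.le
    linarith
  have hx0 : (0 : ℝ) < x := by linarith
  obtain ⟨Q, hQ⟩ : ∃ Q, Q = ⌊(N : ℝ) ^ δ⌋₊ := ⟨_, rfl⟩
  rw [← hQ] at hc ⊢
  have hQN : (Q : ℝ) ≤ (N : ℝ) ^ δ := by rw [hQ]; exact Nat.floor_le (Real.rpow_nonneg hN0.le _)
  have hQN' : (Q : ℝ) ≤ N := hQN.trans (by
    calc (N : ℝ) ^ δ ≤ (N : ℝ) ^ (1 : ℝ) := Real.rpow_le_rpow_of_exponent_le (by linarith) (by linarith)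
      _ = N := Real.rpow_one _)
  have hQN'' : Q ≤ N := by exact_mod_cast hQN'
  have haQ : a * Q ≤ ⌊(x : ℝ) ^ δ'⌋₊ := by
    apply Nat.le_floor
    push_cast
    calc (a : ℝ) * Q ≤ L ^ B * (N : ℝ) ^ δ := mul_le_mul haB hQN (Nat.cast_nonneg _) (by positivity)
      _ ≤ (N : ℝ) ^ (δ' - δ) * (N : ℝ) ^ δ := mul_le_mul_of_nonneg_right hl3 (by positivity)
      _ = (N : ℝ) ^ δ' := by
          rw [← Real.rpow_add hN0]
          congr 1
          ring
      _ ≤ (x : ℝ) ^ δ' := Real.rpow_le_rpow hN0.le hxN (by linarith)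
  -- Bombieri-Vinogradov
  have h1 : ∑ d ∈ Icc 1 Q, |Er x (a * d) (R d)| ≤ C * (x / L ^ (A + 3 + 2 * B)) := by
    classical
    obtain ⟨R', hR'⟩ : ∃ R' : ℕ → ℕ, R' = fun D => if a ∣ D then R (D / a) else 1 := ⟨_, rfl⟩
    have hR'1 : ∀ D, 1 ≤ D → Nat.Coprime (R' D) D := by
      intro D hD
      rw [hR']
      beta_reduce
      split_ifs with h
      · obtain ⟨d, rfl⟩ := h
        rw [Nat.mul_div_cancel_left _ (by omega)]
        apply hR
        rcases Nat.eq_zero_or_pos d with h0 | h0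
        · rw [h0] at hD
          omega
        · exact h0
      · exact Nat.coprime_one_left _
    have h2 := hC x (by
      have : (3 : ℝ) ≤ x := by linarith
      exact_mod_cast this) R' hR'1
    have hinj : Set.InjOn (fun d => a * d) (Icc 1 Q : Finset ℕ) := by
      intro d _ e _ hde
      exact Nat.eq_of_mul_eq_mul_left (by omega) hde
    have h3 : ∑ d ∈ Icc 1 Q, |Er x (a * d) (R d)| = ∑ D ∈ (Icc 1 Q).image (fun d => a * d), |Er x D (R' D)| := by
      rw [Finset.sum_image hinj]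
      apply Finset.sum_congr rfl
      intro d _
      rw [hR']
      beta_reduce
      rw [if_pos (Dvd.intro _ rfl), Nat.mul_div_cancel_left _ (by omega)]
    have h4 : ∑ D ∈ (Icc 1 Q).image (fun d => a * d), |Er x D (R' D)| ≤
        ∑ D ∈ Icc 1 ⌊(x : ℝ) ^ δ'⌋₊, |Er x D (R' D)| := by
      apply Finset.sum_le_sum_of_subset_of_nonneg _ (fun _ _ _ => abs_nonneg _)
      intro D hD
      rw [mem_image] at hD
      obtain ⟨d, hd, rfl⟩ := hD
      rw [mem_Icc] at hd ⊢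
      exact ⟨Nat.mul_pos (by omega) (by omega), (Nat.mul_le_mul_left _ hd.2).trans haQ⟩
    rw [h3]
    refine h4.trans (h2.trans ?_)
    apply mul_le_mul_of_nonneg_left _ hC0.le
    have h5 : L ≤ Real.log x := Real.log_le_log hN0 hxN
    exact div_le_div₀ hx0.le le_rfl (by positivity) (pow_le_pow_left₀ hL0.le h5 _)
  have h5 : ((b : ℝ) + 1) ^ 2 ≤ 4 * N := by
    have h6 : (b : ℝ) + 1 ≤ 2 * √(N : ℝ) := by linarith
    calc ((b : ℝ) + 1) ^ 2 ≤ (2 * √(N : ℝ)) ^ 2 := pow_le_pow_left₀ (by positivity) h6 _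
      _ = 4 * (√(N : ℝ)) ^ 2 := by ring
      _ = 4 * N := by rw [Real.sq_sqrt hN0.le]
  have h7 : ∑ d ∈ Icc 1 Q, (Nat.totient d : ℝ) * (|Er x (a * d) (R d)| + (b + 1)) ^ 2 ≤
      4 * x * ∑ d ∈ Icc 1 Q, |Er x (a * d) (R d)| + 8 * N * Q ^ 2 := by
    have h8 : ∀ d ∈ Icc 1 Q, (Nat.totient d : ℝ) * (|Er x (a * d) (R d)| + (b + 1)) ^ 2 ≤
        4 * x * |Er x (a * d) (R d)| + 8 * N * Q := by
      intro d hd
      rw [mem_Icc] at hd
      have hadx : a * d ≤ x := by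
        rw [hx]
        exact (Nat.mul_le_mul_left _ (hd.2.trans hQN'')).trans (Nat.le_add_right _ _)
      have had1 : 1 ≤ a * d := Nat.mul_pos (by omega) (by omega)
      have h9 := Er_tri x (a * d) (R d) had1 hadx
      have hphi : (0 : ℝ) ≤ Nat.totient d := Nat.cast_nonneg _
      have hphiQ : (Nat.totient d : ℝ) ≤ Q := by exact_mod_cast (Nat.totient_le d).trans hd.2
      have hphia : (Nat.totient d : ℝ) ≤ Nat.totient (a * d) := by
        exact_mod_cast Nat.le_of_dvd (Nat.totient_pos.2 (by omega)) (Nat.totient_dvd_of_dvd (Dvd.intro_left _ rfl))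
      have h9' : (Nat.totient d : ℝ) * |Er x (a * d) (R d)| ≤ 2 * x :=
        (mul_le_mul_of_nonneg_right hphia (abs_nonneg _)).trans h9
      have h10 : (|Er x (a * d) (R d)| + ((b : ℝ) + 1)) ^ 2 ≤ 2 * |Er x (a * d) (R d)| ^ 2 + 2 * ((b : ℝ) + 1) ^ 2 := by
        nlinarith [sq_nonneg (|Er x (a * d) (R d)| - ((b : ℝ) + 1))]
      calc (Nat.totient d : ℝ) * (|Er x (a * d) (R d)| + (b + 1)) ^ 2
          ≤ Nat.totient d * (2 * |Er x (a * d) (R d)| ^ 2 + 2 * ((b : ℝ) + 1) ^ 2) :=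
            mul_le_mul_of_nonneg_left h10 hphi
        _ = 2 * (Nat.totient d * |Er x (a * d) (R d)|) * |Er x (a * d) (R d)| +
              Nat.totient d * (2 * ((b : ℝ) + 1) ^ 2) := by ring
        _ ≤ 2 * (2 * x) * |Er x (a * d) (R d)| + Q * (2 * (4 * N)) := by
            apply add_le_add
            · apply mul_le_mul_of_nonneg_right _ (abs_nonneg _)
              linarith
            · apply mul_le_mul hphiQ _ (by positivity) (Nat.cast_nonneg _)
              linarith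
        _ = 4 * x * |Er x (a * d) (R d)| + 8 * N * Q := by ring
    refine (Finset.sum_le_sum h8).trans ?_
    rw [Finset.sum_add_distrib, ← Finset.mul_sum, Finset.sum_const, Nat.card_Icc, nsmul_eq_mul]
    apply add_le_add le_rfl
    have : ((Q + 1 - 1 : ℕ) : ℝ) = Q := by simp
    rw [this]
    apply le_of_eq
    ring
  have h11 : ∑ d ∈ Icc 1 Q, (Nat.totient d : ℝ) * (|Er x (a * d) (R d)| + (b + 1)) ^ 2 ≤ N ^ 2 / L ^ (A + 2) := by
    have h12 : 4 * (x : ℝ) * ∑ d ∈ Icc 1 Q, |Er x (a * d) (R d)| ≤ 16 * C * (N ^ 2 / L ^ (A + 3)) := by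
      calc 4 * (x : ℝ) * ∑ d ∈ Icc 1 Q, |Er x (a * d) (R d)| ≤ (4 * x) * (C * (x / L ^ (A + 3 + 2 * B))) :=
            mul_le_mul_of_nonneg_left h1 (by positivity)
        _ = 4 * C * (x ^ 2 / L ^ (A + 3 + 2 * B)) := by ring
        _ ≤ 4 * C * ((2 * (L ^ B * N)) ^ 2 / L ^ (A + 3 + 2 * B)) := by
            apply mul_le_mul_of_nonneg_left _ (by positivity)
            apply div_le_div_of_nonneg_right _ (by positivity)
            exact pow_le_pow_left₀ hx0.le hx2 _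
        _ = 16 * C * (N ^ 2 / L ^ (A + 3)) := by
            rw [pow_add L (A + 3) (2 * B), pow_mul' L 2 B]
            field_simp
            ring
    have h13 : 8 * (N : ℝ) * Q ^ 2 ≤ N ^ 2 / L ^ (A + 3) := by
      rw [le_div_iff₀ (by positivity)]
      have h14 : (Q : ℝ) ^ 2 ≤ (N : ℝ) ^ (2 * δ) := by
        calc (Q : ℝ) ^ 2 ≤ ((N : ℝ) ^ δ) ^ 2 := pow_le_pow_left₀ (Nat.cast_nonneg _) hQN _
          _ = (N : ℝ) ^ (2 * δ) := by
            rw [← Real.rpow_natCast, ← Real.rpow_mul hN0.le]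
            congr 1
            push_cast
            ring
      calc 8 * (N : ℝ) * Q ^ 2 * L ^ (A + 3) = N * Q ^ 2 * (8 * L ^ (A + 3)) := by ring
        _ ≤ N * (N : ℝ) ^ (2 * δ) * (N : ℝ) ^ (1 - 2 * δ) := by
            apply mul_le_mul _ hl1 (by positivity) (by positivity)
            exact mul_le_mul_of_nonneg_left h14 hN0.le
        _ = N * ((N : ℝ) ^ (2 * δ) * (N : ℝ) ^ (1 - 2 * δ)) := by ring
        _ = N ^ 2 := by
            rw [← Real.rpow_add hN0]
            have : 2 * δ + (1 - 2 * δ) = 1 := by ring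
            rw [this, Real.rpow_one]
            ring
    calc _ ≤ _ := h7
      _ ≤ 16 * C * (N ^ 2 / L ^ (A + 3)) + N ^ 2 / L ^ (A + 3) := add_le_add h12 h13
      _ = (16 * C + 1) * (N ^ 2 / L ^ (A + 3)) := by ring
      _ ≤ L * (N ^ 2 / L ^ (A + 3)) := mul_le_mul_of_nonneg_right hl2 (by positivity)
      _ = N ^ 2 / L ^ (A + 2) := by
          rw [pow_succ L (A + 2)]
          field_simp
  refine (cs Q c (fun d => |Er x (a * d) (R d)| + (b + 1)) (fun d => by positivity)).trans ?_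
  rw [Real.sqrt_le_left (by positivity)]
  have h15 : 0 ≤ ∑ d ∈ Icc 1 Q, (Nat.totient d : ℝ) * (|Er x (a * d) (R d)| + (b + 1)) ^ 2 :=
    Finset.sum_nonneg fun _ _ => by positivity
  calc _ ≤ (L ^ A * μ ^ 2) * (N ^ 2 / L ^ (A + 2)) := mul_le_mul hc h11 h15 (by positivity)
    _ = (μ * (N / L)) ^ 2 := by
        rw [pow_add L A 2]
        field_simp

/-- the prime number theorem -/
theorem pi_leF (η : ℝ) (hη : 0 < η) : ∃ N₂ : ℕ, ∀ N : ℕ, N₂ ≤ N → ∀ a b : ℕ, 1 ≤ a → (b : ℝ) ≤ √N →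
    (piN (a * N + b) : ℝ) / a ≤ (1 + η) ^ 2 * (N / Real.log N) := by
  have h1 : ∀ᶠ x : ℝ in Filter.atTop, (Nat.primeCounting ⌊x⌋₊ : ℝ) * Real.log x / x < 1 + η :=
    Pool.Agent.Helper507.PNT.pi_tendsto.eventually (gt_mem_nhds (by linarith))
  obtain ⟨x0, hx0⟩ := Filter.eventually_atTop.1 h1
  refine ⟨max 3 (max ⌈x0⌉₊ ⌈(η ^ 2)⁻¹⌉₊), fun N hN a b ha hb => ?_⟩
  have hN3 : 3 ≤ N := (le_max_left _ _).trans hN
  have hNx : x0 ≤ N := (Nat.le_ceil x0).trans (by
    exact_mod_cast ((le_max_left _ _).trans (le_max_right _ _)).trans hN)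
  have hNη : (η ^ 2)⁻¹ ≤ N := (Nat.le_ceil _).trans (by
    exact_mod_cast ((le_max_right _ _).trans (le_max_right _ _)).trans hN)
  have hN0 : (0 : ℝ) < N := by
    have : (3 : ℝ) ≤ N := by exact_mod_cast hN3
    linarith
  have ha1 : (1 : ℝ) ≤ a := by exact_mod_cast ha
  have ha0 : (0 : ℝ) < a := by linarith
  have hL1 : 1 ≤ Real.log N := Pool.Agent.H442R2.KF.TaskBV.log_ge_one hN3
  have hL0 : 0 < Real.log N := by linarith
  have hb0 : (0 : ℝ) ≤ b := Nat.cast_nonneg _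
  have haN : (N : ℝ) ≤ a * N := le_mul_of_one_le_left hN0.le ha1
  have hNx' : (N : ℝ) ≤ ((a * N + b : ℕ) : ℝ) := by push_cast; linarith
  have h2 := hx0 ((a * N + b : ℕ) : ℝ) (by linarith)
  rw [Nat.floor_natCast, ← piN_eq] at h2
  have hx : (0 : ℝ) < ((a * N + b : ℕ) : ℝ) := by linarith
  rw [div_lt_iff₀ hx] at h2
  have h3 : Real.log N ≤ Real.log ((a * N + b : ℕ) : ℝ) := Real.log_le_log hN0 hNx'
  have h4 : (b : ℝ) ≤ η * N := by
    refine hb.trans ?_
    rw [Real.sqrt_le_left (by positivity)]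
    have : 1 ≤ η ^ 2 * N := by
      rw [inv_le_iff_one_le_mul₀ (by positivity)] at hNη
      linarith
    calc (N : ℝ) = 1 * N := (one_mul _).symm
      _ ≤ (η ^ 2 * N) * N := mul_le_mul_of_nonneg_right this hN0.le
      _ = (η * N) ^ 2 := by ring
  have h5 : (piN (a * N + b) : ℝ) * Real.log N ≤ (1 + η) ^ 2 * N * a := by
    calc (piN (a * N + b) : ℝ) * Real.log N ≤ (piN (a * N + b) : ℝ) * Real.log ((a * N + b : ℕ) : ℝ) :=
          mul_le_mul_of_nonneg_left h3 (Nat.cast_nonneg _)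
      _ ≤ (1 + η) * ((a * N + b : ℕ) : ℝ) := h2.le
      _ ≤ (1 + η) * ((1 + η) * (a * N)) := by
          apply mul_le_mul_of_nonneg_left _ (by linarith)
          push_cast
          have : η * N ≤ η * (a * N) := mul_le_mul_of_nonneg_left haN hη.le
          linarith
      _ = _ := by ring
  rw [div_le_iff₀ ha0, mul_div_assoc', div_mul_eq_mul_div, le_div_iff₀ hL0]
  exact h5

/-- The sharp limit for the number of primes in linear forms detected by nonnegative weights, for the primes themselves. -/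
theorem ap_set : ∀ ε : ℝ, 0 < ε → ∃ C : ℝ, 0 < C ∧ ∀ (k : ℕ) (δ : ℝ) (A B : ℕ), 1 ≤ k → 0 < δ → δ < 1 / 2 →
    ∃ N₀ : ℕ, ∀ N : ℕ, N₀ ≤ N → ∀ (T : Finset ℕ) (a b : ℕ → ℕ), T.card = k → (∀ i ∈ T, 1 ≤ a i) →
    (∀ i ∈ T, (a i : ℝ) ≤ Real.log N ^ B) → (∀ i ∈ T, (b i : ℝ) ≤ √N) → (∀ i ∈ T, Nat.Coprime (a i) (b i)) →
    (∀ i ∈ T, ∀ j ∈ T, i ≠ j → a i * b j ≠ a j * b i) → ∀ c : ℕ → ℕ → ℝ,
    (∀ n, 0 ≤ wt ⌊(N : ℝ) ^ δ⌋₊ c n) →
    ∑ d ∈ Icc 1 ⌊(N : ℝ) ^ δ⌋₊, nrm c d ^ 2 / Nat.totient d ≤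
      Real.log N ^ A * ((∑ n ∈ range N, wt ⌊(N : ℝ) ^ δ⌋₊ c n) / N) ^ 2 →
    ∑ n ∈ range N, wt ⌊(N : ℝ) ^ δ⌋₊ c n * ((T.filter (fun i => (a i * n + b i).Prime)).card : ℝ) ≤
      ((δ / 2 + ε) * Real.log k + C) * ∑ n ∈ range N, wt ⌊(N : ℝ) ^ δ⌋₊ c n := by
  intro ε hε
  obtain ⟨C₀, h1⟩ := Pool.Agent.Run7.h962.LF.lin_set (ε / 2) (by positivity)
  obtain ⟨C₁, hC₁'⟩ : ∃ C₁, C₁ = max C₀ 0 := ⟨_, rfl⟩
  have hC₁ : 0 ≤ C₁ := by rw [hC₁']; exact le_max_right _ _
  have hC₀₁ : C₀ ≤ C₁ := by rw [hC₁']; exact le_max_left _ _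
  refine ⟨C₁ + 1, by linarith, fun k δ A B hk hδ0 hδ => ?_⟩
  obtain ⟨η, hη⟩ : ∃ η : ℝ, η = ε / (7 * (1 + ε)) := ⟨_, rfl⟩
  have hη0 : 0 < η := by rw [hη]; positivity
  have hη1 : 7 * η * (1 + ε) = ε := by
    rw [hη]
    field_simp
  have hη2 : 7 * η ≤ 1 := by
    by_contra hcon
    push Not at hcon
    nlinarith
  have hη3 : (1 + η) ^ 3 ≤ 1 + 7 * η := by
    nlinarith [mul_nonneg hη0.le (sub_nonneg.2 (show η ≤ 1 by linarith)), sq_nonneg η,
      mul_nonneg (sq_nonneg η) (sub_nonneg.2 (show η ≤ 1 by linarith))]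
  obtain ⟨Q0, h1⟩ := h1 k δ⁻¹ hk
  obtain ⟨N₁, hN₁⟩ := err δ hδ0 hδ A
  obtain ⟨N₃, hN₃⟩ := errF δ hδ0 hδ A B
  obtain ⟨N₂, hN₂⟩ := pi_leF η hη0
  -- largeness conditions
  have hev : ∀ᶠ x : ℝ in Filter.atTop, ((Q0 : ℝ) + 1 ≤ x ^ δ ∧ 2 ^ δ⁻¹ * √x ≤ x) ∧ (η⁻¹ ≤ Real.log x ∧
      (k : ℝ) ≤ Real.log x) ∧ (2 ≤ x ^ δ ∧ 1 ≤ x) := by
    refine ((tendsto_rpow_atTop hδ0).eventually_ge_atTop _ |>.and ?_).and
      (((Real.tendsto_log_atTop.eventually_ge_atTop _).and (Real.tendsto_log_atTop.eventually_ge_atTop _)).and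
      (((tendsto_rpow_atTop hδ0).eventually_ge_atTop _).and (Filter.eventually_ge_atTop _)))
    filter_upwards [Filter.eventually_ge_atTop ((2 ^ δ⁻¹ : ℝ) ^ 2), Filter.eventually_ge_atTop (0 : ℝ)] with x hx hx0
    have h2 : (2 : ℝ) ^ δ⁻¹ ≤ √x := Real.le_sqrt_of_sq_le hx
    calc (2 : ℝ) ^ δ⁻¹ * √x ≤ √x * √x := mul_le_mul_of_nonneg_right h2 (Real.sqrt_nonneg _)
      _ = x := Real.mul_self_sqrt hx0
  have hev2 : ∀ᶠ x : ℝ in Filter.atTop, Real.log x ^ B ≤ √x := by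
    have h := (isLittleO_log_rpow_rpow_atTop ((B : ℕ) : ℝ) (show (0 : ℝ) < 1 / 2 by norm_num)).bound
      (show (0:ℝ) < 1 by norm_num)
    filter_upwards [h, Filter.eventually_ge_atTop (1:ℝ)] with x hx hx1
    rw [Real.norm_eq_abs, Real.norm_eq_abs, Real.rpow_natCast,
      abs_of_nonneg (pow_nonneg (Real.log_nonneg hx1) _),
      abs_of_nonneg (Real.rpow_nonneg (by linarith) _)] at hx
    rw [Real.sqrt_eq_rpow]
    linarith
  obtain ⟨x0, hx0⟩ := Filter.eventually_atTop.1 (hev.and hev2)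
  refine ⟨max (max N₁ (max N₂ N₃)) (max ⌈x0⌉₊ 3), fun N hN T a b hT ha haB hb hco hdet c hc hcn => ?_⟩
  have hNN1 : N₁ ≤ N := ((le_max_left _ _).trans (le_max_left _ _)).trans hN
  have hNN2 : N₂ ≤ N := ((le_max_left _ _).trans ((le_max_right _ _).trans (le_max_left _ _))).trans hN
  have hNN3 : N₃ ≤ N := ((le_max_right _ _).trans ((le_max_right _ _).trans (le_max_left _ _))).trans hN
  have hNx : x0 ≤ N := (Nat.le_ceil x0).trans (by
    exact_mod_cast ((le_max_left _ _).trans (le_max_right _ _)).trans hN)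
  have hN3 : 3 ≤ N := ((le_max_right _ _).trans (le_max_right _ _)).trans hN
  obtain ⟨⟨⟨hb1, hb2⟩, ⟨hb3, hb4⟩, ⟨hb5, hb6⟩⟩, hb7⟩ := hx0 N hNx
  have hN0 : (0 : ℝ) < N := by linarith
  set Q := ⌊(N : ℝ) ^ δ⌋₊ with hQ
  set L := Real.log N with hL
  have hL1 : 1 ≤ L := Pool.Agent.H442R2.KF.TaskBV.log_ge_one hN3
  have hL0 : 0 < L := by linarith
  have hQQ : Q0 ≤ Q := by
    apply Nat.le_floor
    linarith
  have hQ1 : (N : ℝ) ^ δ ≤ 2 * Q := by
    have h2 : (N : ℝ) ^ δ < Q + 1 := Nat.lt_floor_add_one _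
    have h3 : (1 : ℝ) ≤ Q := by
      have : 1 ≤ Q := by
        apply Nat.le_floor
        push_cast
        linarith
      exact_mod_cast this
    linarith
  have hQpos : (0 : ℝ) < Q := by linarith
  have hsqQ : √(N : ℝ) ≤ (Q : ℝ) ^ δ⁻¹ := by
    have h2 : (N : ℝ) ≤ 2 ^ δ⁻¹ * (Q : ℝ) ^ δ⁻¹ := by
      rw [← Real.mul_rpow (by norm_num) hQpos.le]
      calc (N : ℝ) = ((N : ℝ) ^ δ) ^ δ⁻¹ := by
            rw [← Real.rpow_mul hN0.le, mul_inv_cancel₀ hδ0.ne', Real.rpow_one]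
        _ ≤ (2 * (Q : ℝ)) ^ δ⁻¹ := Real.rpow_le_rpow (by positivity) hQ1 (by positivity)
    have h3 : (2 : ℝ) ^ δ⁻¹ * √(N : ℝ) ≤ 2 ^ δ⁻¹ * (Q : ℝ) ^ δ⁻¹ := hb2.trans h2
    exact le_of_mul_le_mul_left h3 (by positivity)
  have h2 := (h1 Q hQQ T (fun i => (a i : ℤ)) (fun i => (b i : ℤ)) hT
    (fun i hi => by have := ha i hi; exact_mod_cast (by omega : a i ≠ 0))
    (fun i hi => Nat.isCoprime_iff_coprime.2 (hco i hi))
    (fun i hi j hj hij => by
      have := hdet i hi j hj hij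
      exact_mod_cast this)
    (fun i hi => by
      have h3 : |(((a i : ℕ) : ℤ) : ℝ)| = (a i : ℝ) := by
        rw [Int.cast_natCast, abs_of_nonneg (Nat.cast_nonneg _)]
      rw [h3]
      exact ((haB i hi).trans hb7).trans hsqQ)
    (fun i hi => by
      have h3 : |(((b i : ℕ) : ℤ) : ℝ)| = (b i : ℝ) := by
        rw [Int.cast_natCast, abs_of_nonneg (Nat.cast_nonneg _)]
      rw [h3]
      exact (hb i hi).trans hsqQ) c hc).2
  obtain ⟨E, hE⟩ : ∃ E : ℕ → ℝ, E = fun i => ex Q c (a i : ℤ) (b i : ℤ) := ⟨_, rfl⟩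
  have h2' : ∑ i ∈ T, E i ≤ ((1 / 2 + ε / 2) * Real.log k + C₀) * Real.log Q *
      ((∑ n ∈ range Q.factorial, wt Q c n) / Q.factorial) := by
    rw [hE]
    exact h2
  set M := (∑ n ∈ range Q.factorial, wt Q c n) / Q.factorial with hM
  set S := ∑ n ∈ range N, wt Q c n with hS
  have hS0 : 0 ≤ S := Finset.sum_nonneg fun n _ => hc n
  have hfac : (0 : ℝ) < Q.factorial := by exact_mod_cast Q.factorial_pos
  have hM0 : 0 ≤ M := div_nonneg (Finset.sum_nonneg fun n _ => hc n) hfac.le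
  have hE0 : ∀ i ∈ T, 0 ≤ E i := by
    intro i hi
    have hai : ((a i : ℕ) : ℤ) ≠ 0 := by have := ha i hi; exact_mod_cast (by omega : a i ≠ 0)
    have h3 := Pool.Agent.Run7.h962.LF.surv_lin Q c (a i : ℤ) (b i : ℤ) hai
      (Nat.isCoprime_iff_coprime.2 (hco i hi))
    have h4 : 0 ≤ ∑ n ∈ (range Q.factorial).filter (fun n : ℕ => ∀ p ∈ range (Q + 1), p.Prime →
        ¬ (p : ℤ) ∣ (a i : ℤ) * n + (b i : ℤ)), wt Q c n := Finset.sum_nonneg fun n _ => hc n
    rw [h3, Int.natAbs_natCast] at h4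
    have h5 : (0 : ℝ) < Nat.totient (a i * Q.factorial) := by
      exact_mod_cast Nat.totient_pos.2 (Nat.mul_pos (ha i hi) Q.factorial_pos)
    have h6 : (0 : ℝ) < a i := by exact_mod_cast ha i hi
    rw [hE]
    exact nonneg_of_mul_nonneg_right h4 (by positivity)
  have hlogQ : Real.log Q ≤ δ * L := by
    rw [hL, ← Real.log_rpow hN0]
    exact Real.log_le_log hQpos (Nat.floor_le (Real.rpow_nonneg hN0.le _))
  have hlogQ0 : 0 ≤ Real.log Q := Real.log_natCast_nonneg Q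
  have hlogk : 0 ≤ Real.log k := Real.log_nonneg (by exact_mod_cast hk)
  -- the error
  have hμ : 0 ≤ S / N := by positivity
  have hNL : S / N * (N / L) = S / L := by field_simp
  have herr : ∀ i ∈ T, ∑ n ∈ (range N).filter (fun n => (a i * n + b i).Prime), wt Q c n ≤
      (piN (a i * N + b i) : ℝ) / a i * E i + S / L := by
    intro i hi
    obtain ⟨R, hR1, hR2⟩ := worstF (a i * N + b i) (a i) (b i)
    have h4 := main_errorF N (a i) (b i) Q c R (ha i hi) (hco i hi) hR2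
    refine h4.trans ?_
    rw [hE]
    apply add_le_add le_rfl
    have h3 := hN₃ N hNN3 (a i) (b i) (ha i hi) (haB i hi) (hb i hi) R hR1 c (S / N) hμ hcn
    rwa [hNL] at h3
  -- the mean
  have hmean : N * M ≤ S + S / L := by
    refine (sum_ge N Q c).trans ?_
    apply add_le_add le_rfl
    have h3 := hN₁ N hNN1 0 (by simp) (fun _ => 1) (fun d _ => Nat.coprime_one_left d) c (S / N) hμ hcn
    rw [hNL] at h3
    refine le_trans (Finset.sum_le_sum fun d _ => ?_) h3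
    have h4 := nrm_nonneg c d
    have h5 := abs_nonneg (Er (N + 0) d 1)
    have h6 : (0 : ℝ) ≤ ((0 : ℕ) : ℝ) := Nat.cast_nonneg _
    calc nrm c d = nrm c d * 1 := (mul_one _).symm
      _ ≤ nrm c d * (|Er (N + 0) d 1| + (((0 : ℕ) : ℝ) + 1)) := mul_le_mul_of_nonneg_left (by linarith) h4
  -- summation over `T`
  have hTT : ∑ n ∈ range N, wt Q c n * ((T.filter (fun i => (a i * n + b i).Prime)).card : ℝ) =
      ∑ i ∈ T, ∑ n ∈ (range N).filter (fun n => (a i * n + b i).Prime), wt Q c n := by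
    have e1 : ∀ n ∈ range N, wt Q c n * ((T.filter (fun i => (a i * n + b i).Prime)).card : ℝ) =
        ∑ i ∈ T, if (a i * n + b i).Prime then wt Q c n else 0 := by
      intro n _
      rw [← Finset.sum_filter, Finset.sum_const, nsmul_eq_mul, mul_comm]
    rw [Finset.sum_congr rfl e1, Finset.sum_comm]
    apply Finset.sum_congr rfl
    intro i _
    rw [Finset.sum_filter]
  rw [hTT]
  obtain ⟨K, hK⟩ : ∃ K : ℝ, K = (1 / 2 + ε / 2) * Real.log k + C₁ := ⟨_, rfl⟩
  have hK0 : 0 ≤ K := by rw [hK]; positivity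
  have h3 : ∑ i ∈ T, ∑ n ∈ (range N).filter (fun n => (a i * n + b i).Prime), wt Q c n ≤
      (1 + η) ^ 2 * (N / L) * ∑ i ∈ T, E i + k * (S / L) := by
    refine (Finset.sum_le_sum herr).trans ?_
    rw [Finset.sum_add_distrib, Finset.sum_const, nsmul_eq_mul, hT, Finset.mul_sum]
    apply add_le_add _ le_rfl
    apply Finset.sum_le_sum
    intro i hi
    exact mul_le_mul_of_nonneg_right (hN₂ N hNN2 (a i) (b i) (ha i hi) (hb i hi)) (hE0 i hi)
  have h4 : (1 + η) ^ 2 * (N / L) * ∑ i ∈ T, E i ≤ (1 + η) ^ 2 * δ * K * (S + S / L) := by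
    calc (1 + η) ^ 2 * (N / L) * ∑ i ∈ T, E i ≤ (1 + η) ^ 2 * (N / L) * (K * (δ * L) * M) := by
          apply mul_le_mul_of_nonneg_left _ (by positivity)
          refine h2'.trans ?_
          apply mul_le_mul_of_nonneg_right _ hM0
          calc ((1 / 2 + ε / 2) * Real.log k + C₀) * Real.log Q ≤ K * Real.log Q := by
                apply mul_le_mul_of_nonneg_right _ hlogQ0
                rw [hK]
                linarith
            _ ≤ K * (δ * L) := mul_le_mul_of_nonneg_left hlogQ hK0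
      _ = (1 + η) ^ 2 * δ * K * (N * M) := by
          field_simp
      _ ≤ (1 + η) ^ 2 * δ * K * (S + S / L) := mul_le_mul_of_nonneg_left hmean (by positivity)
  have h5 : S + S / L ≤ (1 + η) * S := by
    have h6 : 1 / L ≤ η := by
      rw [div_le_iff₀ hL0]
      have h7 : η * η⁻¹ = 1 := mul_inv_cancel₀ hη0.ne'
      calc 1 = η * η⁻¹ := h7.symm
        _ ≤ η * L := mul_le_mul_of_nonneg_left hb3 hη0.le
    have h8 : S / L = 1 / L * S := by ring
    rw [h8]
    nlinarith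
  have h6 : (k : ℝ) * (S / L) ≤ S := by
    rw [← mul_div_assoc, div_le_iff₀ hL0, mul_comm]
    exact mul_le_mul_of_nonneg_left hb4 hS0
  have h7 : (1 + η) ^ 2 * δ * K * (S + S / L) ≤ (δ * ((1 + 7 * η) * K)) * S := by
    calc (1 + η) ^ 2 * δ * K * (S + S / L) ≤ (1 + η) ^ 2 * δ * K * ((1 + η) * S) :=
          mul_le_mul_of_nonneg_left h5 (by positivity)
      _ = (δ * ((1 + η) ^ 3 * K)) * S := by ring
      _ ≤ (δ * ((1 + 7 * η) * K)) * S := by
          apply mul_le_mul_of_nonneg_right _ hS0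
          apply mul_le_mul_of_nonneg_left _ hδ0.le
          exact mul_le_mul_of_nonneg_right hη3 hK0
  have h8 : (1 + 7 * η) * K ≤ (1 / 2 + ε) * Real.log k + 2 * C₁ := by
    have h9 : (1 + 7 * η) * (1 / 2 + ε / 2) = 1 / 2 + ε := by
      have : (1 + 7 * η) * (1 / 2 + ε / 2) = 1 / 2 + ε / 2 + 7 * η * (1 + ε) / 2 := by ring
      rw [this, hη1]
      ring
    have h10 : (1 + 7 * η) * C₁ ≤ 2 * C₁ := mul_le_mul_of_nonneg_right (by linarith) hC₁
    rw [hK, mul_add, ← mul_assoc, h9]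
    linarith
  have h9 : δ * ((1 + 7 * η) * K) ≤ (δ / 2 + ε) * Real.log k + C₁ := by
    calc δ * ((1 + 7 * η) * K) ≤ δ * ((1 / 2 + ε) * Real.log k + 2 * C₁) := mul_le_mul_of_nonneg_left h8 hδ0.le
      _ = (δ / 2 + δ * ε) * Real.log k + 2 * δ * C₁ := by ring
      _ ≤ (δ / 2 + ε) * Real.log k + C₁ := by
          apply add_le_add
          · apply mul_le_mul_of_nonneg_right _ hlogk
            have : δ * ε ≤ 1 * ε := mul_le_mul_of_nonneg_right (by linarith) hε.le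
            linarith
          · have : 2 * δ * C₁ ≤ 1 * C₁ := mul_le_mul_of_nonneg_right (by linarith) hC₁
            linarith
  calc _ ≤ _ := h3
    _ ≤ (δ * ((1 + 7 * η) * K)) * S + S := add_le_add (h4.trans h7) h6
    _ ≤ ((δ / 2 + ε) * Real.log k + C₁) * S + S := add_le_add (mul_le_mul_of_nonneg_right h9 hS0) le_rfl
    _ = _ := by ring

end Pool.Agent.Run7.h962.AP
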