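import Pool.Agent.Run7.h962.AP.A4

/-! # Main terms and actual primes together (helper962) -/

set_option autoImplicit false

open Finset

namespace Pool.Agent.Run7.h962.AP

open Pool.Agent.N422.SL (wt)
open Pool.Agent.Run7.h962.LF (ex)

theorem log_le_sqrt (B : ℕ) : ∃ N₁ : ℕ, ∀ N : ℕ, N₁ ≤ N → Real.log N ^ B ≤ √(N : ℝ) := by
  have hev2 : ∀ᶠ x : ℝ in Filter.atTop, Real.log x ^ B ≤ √x := by
    have h := (isLittleO_log_rpow_rpow_atTop ((B : ℕ) : ℝ) (show (0 : ℝ) < 1 / 2 by norm_num)).bound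
      (show (0:ℝ) < 1 by norm_num)
    filter_upwards [h, Filter.eventually_ge_atTop (1:ℝ)] with x hx hx1
    rw [Real.norm_eq_abs, Real.norm_eq_abs, Real.rpow_natCast,
      abs_of_nonneg (pow_nonneg (Real.log_nonneg hx1) _),
      abs_of_nonneg (Real.rpow_nonneg (by linarith) _)] at hx
    rw [Real.sqrt_eq_rpow]
    linarith
  obtain ⟨x0, hx0⟩ := Filter.eventually_atTop.1 hev2
  refine ⟨⌈x0⌉₊, fun N hN => hx0 N ?_⟩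
  exact (Nat.le_ceil x0).trans (by exact_mod_cast hN)

theorem both_set : ∀ ε : ℝ, 0 < ε → ∃ C : ℝ, 0 < C ∧
    (∀ (k : ℕ) (B : ℝ), 1 ≤ k → ∃ Q0 : ℕ, ∀ Q : ℕ, Q0 ≤ Q →
    ∀ (T : Finset ℕ) (a b : ℕ → ℤ), T.card = k → (∀ i ∈ T, a i ≠ 0) → (∀ i ∈ T, IsCoprime (a i) (b i)) →
    (∀ i ∈ T, ∀ j ∈ T, i ≠ j → a i * b j ≠ a j * b i) →
    (∀ i ∈ T, |(a i : ℝ)| ≤ (Q : ℝ) ^ B) → (∀ i ∈ T, |(b i : ℝ)| ≤ (Q : ℝ) ^ B) →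
    ∀ c : ℕ → ℕ → ℝ, (∀ n, 0 ≤ wt Q c n) →
    (∑ n ∈ range Q.factorial, wt Q c n *
      ((T.filter (fun i => ∀ p ∈ Icc 1 Q, p.Prime → ¬ (p : ℤ) ∣ a i * n + b i)).card : ℝ)) / Q.factorial ≤
      ((Real.exp (-Real.eulerMascheroniConstant) / 2 + ε) * Real.log k + C) *
        ((∑ n ∈ range Q.factorial, wt Q c n) / Q.factorial) ∧
    ∑ i ∈ T, ex Q c (a i) (b i) ≤
      ((1 / 2 + ε) * Real.log k + C) * Real.log Q * ((∑ n ∈ range Q.factorial, wt Q c n) / Q.factorial)) ∧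
    (∀ (k : ℕ) (δ : ℝ) (A B : ℕ), 1 ≤ k → 0 < δ → δ < 1 / 2 →
    ∃ N₀ : ℕ, (∀ N : ℕ, N₀ ≤ N → Real.log N ^ B ≤ √(N : ℝ) ∧ 1 ≤ √(N : ℝ)) ∧ ∀ N : ℕ, N₀ ≤ N →
    ∀ (T : Finset ℕ) (a b : ℕ → ℕ), T.card = k → (∀ i ∈ T, 1 ≤ a i) →
    (∀ i ∈ T, (a i : ℝ) ≤ Real.log N ^ B) → (∀ i ∈ T, (b i : ℝ) ≤ √N) → (∀ i ∈ T, Nat.Coprime (a i) (b i)) →
    (∀ i ∈ T, ∀ j ∈ T, i ≠ j → a i * b j ≠ a j * b i) → ∀ c : ℕ → ℕ → ℝ,
    (∀ n, 0 ≤ wt ⌊(N : ℝ) ^ δ⌋₊ c n) →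
    ∑ d ∈ Icc 1 ⌊(N : ℝ) ^ δ⌋₊, nrm c d ^ 2 / Nat.totient d ≤
      Real.log N ^ A * ((∑ n ∈ range N, wt ⌊(N : ℝ) ^ δ⌋₊ c n) / N) ^ 2 →
    ∑ n ∈ range N, wt ⌊(N : ℝ) ^ δ⌋₊ c n * ((T.filter (fun i => (a i * n + b i).Prime)).card : ℝ) ≤
      ((δ / 2 + ε) * Real.log k + C) * ∑ n ∈ range N, wt ⌊(N : ℝ) ^ δ⌋₊ c n) := by
  intro ε hε
  obtain ⟨C₁, h1⟩ := Pool.Agent.Run7.h962.LF.lin_set ε hε
  obtain ⟨C₂, hC₂, h2⟩ := ap_set ε hε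
  obtain ⟨C, hCd⟩ : ∃ C : ℝ, C = max C₁ C₂ := ⟨_, rfl⟩
  have hC1 : C₁ ≤ C := by rw [hCd]; exact le_max_left _ _
  have hC2 : C₂ ≤ C := by rw [hCd]; exact le_max_right _ _
  refine ⟨C, by linarith, fun k B hk => ?_, fun k δ A B hk hδ0 hδ => ?_⟩
  · obtain ⟨Q0, h1⟩ := h1 k B hk
    refine ⟨Q0, fun Q hQ T a b hT ha hab hdet haB hbB c hc => ?_⟩
    have h3 := h1 Q hQ T a b hT ha hab hdet haB hbB c hc
    have hM : 0 ≤ (∑ n ∈ range Q.factorial, wt Q c n) / (Q.factorial : ℝ) :=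
      div_nonneg (Finset.sum_nonneg fun n _ => hc n) (Nat.cast_nonneg _)
    have hlogQ : 0 ≤ Real.log Q := Real.log_natCast_nonneg Q
    refine ⟨h3.1.trans (mul_le_mul_of_nonneg_right (by linarith) hM), h3.2.trans ?_⟩
    exact mul_le_mul_of_nonneg_right (mul_le_mul_of_nonneg_right (by linarith) hlogQ) hM
  · obtain ⟨N₀, h2⟩ := h2 k δ A B hk hδ0 hδ
    obtain ⟨N₁, h4⟩ := log_le_sqrt B
    refine ⟨max (max N₀ N₁) 1, fun N hN => ⟨h4 N (((le_max_right _ _).trans (le_max_left _ _)).trans hN), ?_⟩,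
      fun N hN T a b hT ha haB hb hco hdet c hc hcn => ?_⟩
    · rw [Real.one_le_sqrt]
      exact_mod_cast (le_max_right _ _).trans hN
    · refine (h2 N (((le_max_left _ _).trans (le_max_left _ _)).trans hN) T a b hT ha haB hb hco hdet c hc hcn).trans ?_
      exact mul_le_mul_of_nonneg_right (by linarith) (Finset.sum_nonneg fun n _ => hc n)

end Pool.Agent.Run7.h962.AP
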