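import Pool.Agent.Run7.h962.AP.A5
import Pool.Agent.Run7.h962.LF.PoiFin

/-! # All factorial moments for linear forms, and the primes themselves (helper962) -/

set_option autoImplicit false

open Finset

namespace Pool.Agent.Run7.h962.AP

open Pool.Agent.N422.SL (wt)

/-- the mean over the period `Q!` -/
noncomputable def mnF (Q : ℕ) (F : ℕ → ℝ) : ℝ := (∑ n ∈ range Q.factorial, F n) / (Q.factorial : ℝ)

/-- the number of the `i ∈ T` for which `a_i n + b_i` has no prime factor `≤ Q` -/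
def frF (Q : ℕ) (T : Finset ℕ) (a b : ℕ → ℤ) (n : ℕ) : ℕ :=
  (T.filter (fun i => ∀ p ∈ Icc 1 Q, p.Prime → ¬ (p : ℤ) ∣ a i * n + b i)).card

theorem poi_set : ∀ ε : ℝ, 0 < ε → ∃ C₀ : ℝ, 0 < C₀ ∧ ∀ C : ℝ, C₀ ≤ C → ∀ (k : ℕ) (B : ℝ), 1 ≤ k → ∃ Q0 : ℕ,
    ∀ Q : ℕ, Q0 ≤ Q → ∀ (T : Finset ℕ) (a b : ℕ → ℤ), T.card = k → (∀ i ∈ T, a i ≠ 0) →
    (∀ i ∈ T, ∀ j ∈ T, i ≠ j → a i * b j ≠ a j * b i) →
    (∀ i ∈ T, |(a i : ℝ)| ≤ (Q : ℝ) ^ B) → (∀ i ∈ T, |(b i : ℝ)| ≤ (Q : ℝ) ^ B) →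
    ∀ c : ℕ → ℕ → ℝ, (∀ n, 0 ≤ wt Q c n) → ∀ L : ℝ,
    L = (Real.exp (-Real.eulerMascheroniConstant) / 2 + ε) * Real.log k + C →
    (∀ r : ℕ, mnF Q (fun n => wt Q c n * ((frF Q T a b n).choose r : ℝ)) ≤
      L ^ r / (r.factorial : ℝ) * mnF Q (wt Q c)) ∧
    (∀ r : ℕ, (∏ p ∈ (Icc 1 Q).filter Nat.Prime, (1 - 1 / (p : ℝ)))⁻¹ ^ r *
      mnF Q (fun n => wt Q c n * ((frF Q T a b n).choose r : ℝ)) ≤
      (((1 / 2 + ε) * Real.log k + C) * Real.log Q) ^ r / (r.factorial : ℝ) * mnF Q (wt Q c)) ∧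
    (∀ m : ℕ, L ≤ m → mnF Q (fun n => if m ≤ frF Q T a b n then wt Q c n else 0) ≤
      Real.exp (m - L) * (L / m) ^ m * mnF Q (wt Q c)) := by
  intro ε hε
  obtain ⟨C₀, hC₀, h1⟩ := Pool.Agent.Run7.h962.LP.poisson_all ε hε
  refine ⟨C₀, hC₀, fun C hC k B hk => ?_⟩
  obtain ⟨Q0, h1⟩ := h1 k 0 B hk
  refine ⟨Q0, fun Q hQ T a b hT ha hdet haB hbB c hc L hL => ?_⟩
  obtain ⟨e, he⟩ : ∃ e : Fin k ↪o ℕ, e = T.orderEmbOfFin hT := ⟨_, rfl⟩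
  have hmem : ∀ i, e i ∈ T := fun i => by rw [he]; exact T.orderEmbOfFin_mem hT i
  have himg : T = univ.image e := by
    rw [he]
    exact (Finset.image_orderEmbOfFin_univ T hT).symm
  have hone : (1 : ℝ) ≤ (Q : ℝ) ^ B := by
    have h2 := ha _ (hmem ⟨0, by omega⟩)
    have h3 := haB _ (hmem ⟨0, by omega⟩)
    refine le_trans ?_ h3
    have h4 : (1 : ℤ) ≤ |a (e ⟨0, by omega⟩)| := Int.one_le_abs h2
    exact_mod_cast h4
  have h3 := h1 Q hQ 1 (by simp) (fun j => by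
      rw [Polynomial.coeff_one]
      split_ifs
      · simpa using hone
      · simpa using (zero_le_one.trans hone))
    (fun i => a (e i)) (fun i => b (e i)) (fun i => ha _ (hmem i)) (fun i => by simp)
    (fun i j hij => hdet _ (hmem i) _ (hmem j) (fun h => hij (e.injective h)))
    (fun i => haB _ (hmem i)) (fun i => hbB _ (hmem i)) c (fun n _ => hc n)
  have hs : Pool.Agent.Run7.h962.LP.sif Q 1 = range Q.factorial := by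
    unfold Pool.Agent.Run7.h962.LP.sif
    apply Finset.filter_true_of_mem
    intro n _
    simp
  have hfr : ∀ n, Pool.Agent.Run7.h962.LP.frn Q (fun i => a (e i)) (fun i => b (e i)) n = frF Q T a b n := by
    intro n
    unfold Pool.Agent.Run7.h962.LP.frn frF
    have : T.filter (fun i => ∀ p ∈ Icc 1 Q, p.Prime → ¬ (p : ℤ) ∣ a i * n + b i) =
        (univ.filter (fun i : Fin k => ∀ p ∈ Icc 1 Q, p.Prime → ¬ (p : ℤ) ∣ a (e i) * n + b (e i))).image e := by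
      conv_lhs => rw [himg]
      rw [filter_image]
    rw [this, card_image_of_injective _ e.injective]
  rw [hs] at h3
  simp only [hfr] at h3
  have hlogk : 0 ≤ Real.log k := Real.log_natCast_nonneg k
  have hl : 0 ≤ Real.log Q := Real.log_natCast_nonneg Q
  have hm : 0 ≤ ∑ n ∈ range Q.factorial, wt Q c n := Finset.sum_nonneg fun n _ => hc n
  have hLp : 0 < L := by
    rw [hL]
    have : 0 < C := by linarith
    positivity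
  have hfac : ∀ r : ℕ, (0 : ℝ) < (r.factorial : ℝ) := fun r => by exact_mod_cast Nat.factorial_pos r
  have k1 : ∀ r : ℕ, (r.factorial : ℝ) * ∑ n ∈ range Q.factorial, wt Q c n * ((frF Q T a b n).choose r : ℝ) ≤
      L ^ r * ∑ n ∈ range Q.factorial, wt Q c n := fun r =>
    (h3.1 r).trans (mul_le_mul_of_nonneg_right (pow_le_pow_left₀ (by positivity) (by rw [hL]; linarith) r) hm)
  have k2 : ∀ r : ℕ, (r.factorial : ℝ) * ((∏ p ∈ (Icc 1 Q).filter Nat.Prime, (1 - 1 / (p : ℝ)))⁻¹ ^ r *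
      ∑ n ∈ range Q.factorial, wt Q c n * ((frF Q T a b n).choose r : ℝ)) ≤
      (((1 / 2 + ε) * Real.log k + C) * Real.log Q) ^ r * ∑ n ∈ range Q.factorial, wt Q c n := fun r => by
    refine (h3.2 r).trans (mul_le_mul_of_nonneg_right (pow_le_pow_left₀ (by positivity) ?_ r) hm)
    exact mul_le_mul_of_nonneg_right (by linarith) hl
  refine ⟨fun r => ?_, fun r => ?_, fun m hmm => ?_⟩
  · unfold mnF
    rw [← mul_div_assoc]
    apply div_le_div_of_nonneg_right _ (Nat.cast_nonneg _)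
    rw [div_mul_eq_mul_div, le_div_iff₀ (hfac r), mul_comm]
    exact k1 r
  · unfold mnF
    rw [← mul_div_assoc, ← mul_div_assoc]
    apply div_le_div_of_nonneg_right _ (Nat.cast_nonneg _)
    rw [div_mul_eq_mul_div, le_div_iff₀ (hfac r), mul_comm]
    exact k2 r
  · unfold mnF
    rw [← mul_div_assoc]
    apply div_le_div_of_nonneg_right _ (Nat.cast_nonneg _)
    rw [← Finset.sum_filter]
    exact Pool.Agent.Run7.h962.LP.tail (S := range Q.factorial) (w := wt Q c) (X := fun n => frF Q T a b n) hLp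
      (k := k) (fun n => by
        rw [← hT]
        exact Finset.card_le_card (Finset.filter_subset _ _)) (fun n _ => hc n) k1 m hmm

/-- all moments and the primes themselves, with one constant -/
theorem poi_both : ∀ ε : ℝ, 0 < ε → ∃ C : ℝ, 0 < C ∧ (∀ (k : ℕ) (B : ℝ), 1 ≤ k → ∃ Q0 : ℕ,
    ∀ Q : ℕ, Q0 ≤ Q → ∀ (T : Finset ℕ) (a b : ℕ → ℤ), T.card = k → (∀ i ∈ T, a i ≠ 0) →
    (∀ i ∈ T, ∀ j ∈ T, i ≠ j → a i * b j ≠ a j * b i) →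
    (∀ i ∈ T, |(a i : ℝ)| ≤ (Q : ℝ) ^ B) → (∀ i ∈ T, |(b i : ℝ)| ≤ (Q : ℝ) ^ B) →
    ∀ c : ℕ → ℕ → ℝ, (∀ n, 0 ≤ wt Q c n) → ∀ L : ℝ,
    L = (Real.exp (-Real.eulerMascheroniConstant) / 2 + ε) * Real.log k + C →
    (∀ r : ℕ, mnF Q (fun n => wt Q c n * ((frF Q T a b n).choose r : ℝ)) ≤
      L ^ r / (r.factorial : ℝ) * mnF Q (wt Q c)) ∧
    (∀ r : ℕ, (∏ p ∈ (Icc 1 Q).filter Nat.Prime, (1 - 1 / (p : ℝ)))⁻¹ ^ r *
      mnF Q (fun n => wt Q c n * ((frF Q T a b n).choose r : ℝ)) ≤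
      (((1 / 2 + ε) * Real.log k + C) * Real.log Q) ^ r / (r.factorial : ℝ) * mnF Q (wt Q c)) ∧
    (∀ m : ℕ, L ≤ m → mnF Q (fun n => if m ≤ frF Q T a b n then wt Q c n else 0) ≤
      Real.exp (m - L) * (L / m) ^ m * mnF Q (wt Q c))) ∧
    (∀ (k : ℕ) (δ : ℝ) (A B : ℕ), 1 ≤ k → 0 < δ → δ < 1 / 2 →
    ∃ N₀ : ℕ, (∀ N : ℕ, N₀ ≤ N → Real.log N ^ B ≤ √(N : ℝ) ∧ 1 ≤ √(N : ℝ)) ∧ ∀ N : ℕ, N₀ ≤ N →
    ∀ (T : Finset ℕ) (a b : ℕ → ℕ), T.card = k → (∀ i ∈ T, 1 ≤ a i) →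
    (∀ i ∈ T, (a i : ℝ) ≤ Real.log N ^ B) → (∀ i ∈ T, (b i : ℝ) ≤ √N) → (∀ i ∈ T, Nat.Coprime (a i) (b i)) →
    (∀ i ∈ T, ∀ j ∈ T, i ≠ j → a i * b j ≠ a j * b i) → ∀ c : ℕ → ℕ → ℝ,
    (∀ n, 0 ≤ wt ⌊(N : ℝ) ^ δ⌋₊ c n) →
    ∑ d ∈ Icc 1 ⌊(N : ℝ) ^ δ⌋₊, nrm c d ^ 2 / Nat.totient d ≤
      Real.log N ^ A * ((∑ n ∈ range N, wt ⌊(N : ℝ) ^ δ⌋₊ c n) / N) ^ 2 →
    ∑ n ∈ range N, wt ⌊(N : ℝ) ^ δ⌋₊ c n * ((T.filter (fun i => (a i * n + b i).Prime)).card : ℝ) ≤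
      ((δ / 2 + ε) * Real.log k + C) * ∑ n ∈ range N, wt ⌊(N : ℝ) ^ δ⌋₊ c n) := by
  intro ε hε
  obtain ⟨C₁, hC₁, h1⟩ := poi_set ε hε
  obtain ⟨C₂, hC₂, _, h2⟩ := both_set ε hε
  obtain ⟨C, hCd⟩ : ∃ C : ℝ, C = max C₁ C₂ := ⟨_, rfl⟩
  have hC1 : C₁ ≤ C := by rw [hCd]; exact le_max_left _ _
  have hC2 : C₂ ≤ C := by rw [hCd]; exact le_max_right _ _
  refine ⟨C, by linarith, fun k B hk => h1 C hC1 k B hk, fun k δ A B hk hδ0 hδ => ?_⟩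
  obtain ⟨N₀, hs, h2⟩ := h2 k δ A B hk hδ0 hδ
  refine ⟨N₀, hs, fun N hN T a b hT ha haB hb hco hdet c hc hcn => ?_⟩
  refine (h2 N hN T a b hT ha haB hb hco hdet c hc hcn).trans ?_
  exact mul_le_mul_of_nonneg_right (by linarith) (Finset.sum_nonneg fun n _ => hc n)

end Pool.Agent.Run7.h962.AP
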